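import Mathlib

/-!
# Cannon-Thurston maps: the notions of the problem file

Gromov hyperbolic spaces, their boundaries and visual metrics, geometric actions, convergence
actions, limit sets and conical points.
-/

open Filter Topology Set

namespace Pool.Agent.Helper68.CT

section Space

variable {X : Type} [MetricSpace X]

/-- The Gromov product `(x|y)_o`. -/
noncomputable def gromovProduct (o x y : X) : ℝ :=
  (dist o x + dist o y - dist x y) / 2

variable (X) in
/-- Gromov hyperbolicity (four point condition). -/
def GromovHyperbolic : Prop :=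
  ∃ δ : ℝ, ∀ o x y z : X,
    min (gromovProduct o x y) (gromovProduct o y z) - δ ≤ gromovProduct o x z

variable (X) in
/-- Any two points are joined by a geodesic, i.e. by an isometric copy of an interval. -/
def GeodesicSpace : Prop :=
  ∀ x y : X, ∃ γ : ℝ → X, γ 0 = x ∧ γ (dist x y) = y ∧
    ∀ s ∈ Icc (0 : ℝ) (dist x y), ∀ t ∈ Icc (0 : ℝ) (dist x y), dist (γ s) (γ t) = |s - t|

/-- `(x_i|y_j)_o` tends to infinity as `i, j` tend to infinity (for every base point `o`). -/
def ToInfinity (x y : ℕ → X) : Prop :=
  ∀ o : X, Tendsto (fun p : ℕ × ℕ => gromovProduct o (x p.1) (y p.2)) atTop atTop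

variable (X) in
/-- The sequences that converge to infinity: `(x_i|x_j) → ∞`. -/
def GromovSeq : Type := {x : ℕ → X // ToInfinity x x}

variable (X) in
/-- The Gromov boundary: sequences converging to infinity, `x` and `y` being identified if
`(x_i|y_j) → ∞`. -/
def Boundary : Type := Quot (fun x y : GromovSeq X => ToInfinity x.1 y.1)

/-- The point of the boundary to which a sequence converges. -/
def Boundary.mk (x : GromovSeq X) : Boundary X := Quot.mk _ x

/-- The Gromov product `(p|q)_o` of two points of the boundary: the supremum of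
`liminf (x_i|y_j)_o` over all sequences `x → p` and `y → q`. -/
noncomputable def boundaryProduct (o : X) (p q : Boundary X) : EReal :=
  ⨆ (x : GromovSeq X) (y : GromovSeq X) (_ : Boundary.mk x = p) (_ : Boundary.mk y = q),
    liminf (fun ij : ℕ × ℕ => ((gromovProduct o (x.1 ij.1) (y.1 ij.2) : ℝ) : EReal)) atTop

/-- `a ^ (-t)` for an extended real `t` (and `0` for `t = ∞`). -/
noncomputable def expNeg (a : ℝ) (t : EReal) : ℝ :=
  if t = ⊤ then 0 else a ^ (-t.toReal)

/-- `d` is a visual metric with parameter `a` on the boundary (base point `o`). -/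
def IsVisual (a : ℝ) (o : X) (d : MetricSpace (Boundary X)) : Prop :=
  ∃ C : ℝ, 1 ≤ C ∧ ∀ p q : Boundary X,
    C⁻¹ * expNeg a (boundaryProduct o p q) ≤ d.dist p q ∧
      d.dist p q ≤ C * expNeg a (boundaryProduct o p q)

/-- Continuity of a map on the boundary with respect to the metric `d`. -/
def ContinuousWith {Z : Type} [TopologicalSpace Z] (d : MetricSpace (Boundary X))
    (i : Boundary X → Z) : Prop :=
  letI := d
  Continuous i

/-- The Hausdorff dimension of a subset of the boundary with respect to the metric `d`. -/
noncomputable def dimWith (d : MetricSpace (Boundary X)) (s : Set (Boundary X)) : ENNReal :=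
  letI := d
  dimH s

end Space

section Action

variable (H : Type) [Group H]

/-- Not virtually cyclic (in particular infinite). -/
def NotVirtuallyCyclic : Prop :=
  ∀ K : Subgroup H, K.index ≠ 0 → ¬ IsCyclic K

/-- The action is isometric, properly discontinuous and cocompact. -/
structure GeometricAction (X : Type) [MetricSpace X] [MulAction H X] : Prop where
  isometric : ∀ (h : H) (x y : X), dist (h • x) (h • y) = dist x y
  properlyDiscontinuous : ∀ K : Set X, IsCompact K →
    {h : H | ((fun x => h • x) '' K ∩ K).Nonempty}.Finite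
  cocompact : ∃ K : Set X, IsCompact K ∧ ∀ x : X, ∃ h : H, ∃ k ∈ K, h • k = x

/-- `g_n → c` uniformly on compact subsets of `Z ∖ {b}`. -/
def ConvergesOff {H : Type} [Group H] {Z : Type} [TopologicalSpace Z] [MulAction H Z]
    (g : ℕ → H) (b c : Z) : Prop :=
  ∀ K : Set Z, IsCompact K → b ∉ K → ∀ U ∈ 𝓝 c, ∀ᶠ n in atTop, ∀ z ∈ K, g n • z ∈ U

/-- A convergence action: by homeomorphisms, and every sequence of distinct elements has a
subsequence that converges to a constant `c` uniformly on compact subsets of the complement of
a point `b`. -/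
structure ConvergenceAction (Z : Type) [TopologicalSpace Z] [MulAction H Z] : Prop where
  continuous_smul : ∀ h : H, Continuous (fun z : Z => h • z)
  convergence : ∀ g : ℕ → H, Function.Injective g →
    ∃ φ : ℕ → ℕ, StrictMono φ ∧ ∃ b c : Z, ConvergesOff (g ∘ φ) b c

/-- The limit set. -/
def limitSet (Z : Type) [TopologicalSpace Z] [MulAction H Z] : Set Z :=
  {c | ∃ g : ℕ → H, Function.Injective g ∧ ∃ b : Z, ConvergesOff g b c}

/-- `z` is conical: there are `h_n` and `b ≠ c` with `h_n z → b` and `h_n y → c` for all
`y ≠ z`. -/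
def IsConical {Z : Type} [TopologicalSpace Z] [MulAction H Z] (z : Z) : Prop :=
  ∃ (h : ℕ → H) (b c : Z), b ≠ c ∧ Tendsto (fun n => h n • z) atTop (𝓝 b) ∧
    ∀ y, y ≠ z → Tendsto (fun n => h n • y) atTop (𝓝 c)

/-- The non-conical points of the limit set. -/
def nonConical (Z : Type) [TopologicalSpace Z] [MulAction H Z] : Set Z :=
  {z ∈ limitSet H Z | ¬ IsConical H z}

/-- The map `i : ∂X → Z` is equivariant. -/
def Equivariant {X Z : Type} [MetricSpace X] [MulAction H X] [MulAction H Z]
    (i : Boundary X → Z) : Prop :=
  ∀ (h : H) (x y : GromovSeq X), (∀ n, y.1 n = h • x.1 n) →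
    i (Boundary.mk y) = h • i (Boundary.mk x)

end Action

end Pool.Agent.Helper68.CT
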