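import Pool.Agent.Helper68.CT.Geom

/-!
# Properness of the tree; the action of `H` is geometric; `H` is not virtually cyclic
-/

open Filter Topology Set

namespace Pool.Agent.Helper68.CT

namespace X

/-- The parametrization of the tree by rays and heights. -/
noncomputable def κ (p : Ray × ℝ) : X := pt p.1 (max p.2 0) (le_max_right _ _)

theorem dist_pt_le {ξ η : Ray} {s t : ℝ} (hs : 0 ≤ s) (ht : 0 ≤ t)
    (h : ∀ k : ℕ, (k : ℝ) < min s t → ξ k = η k) : dist (pt ξ s hs) (pt η t ht) ≤ |s - t| := by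
  rw [dist_pt]
  have : min s t ≤ Pre.meet ⟨ξ, s, hs⟩ ⟨η, t, ht⟩ :=
    Pre.le_meet_iff.mpr ⟨min_le_left _ _, min_le_right _ _, h⟩
  rcases le_total s t with h | h
  · rw [min_eq_left h] at this; rw [abs_of_nonpos (by linarith)]; linarith
  · rw [min_eq_right h] at this; rw [abs_of_nonneg (by linarith)]; linarith

theorem continuous_κ : Continuous κ := by
  rw [continuous_iff_continuousAt]
  rintro ⟨ξ, t⟩
  rw [ContinuousAt, Metric.tendsto_nhds]
  intro ε hε
  obtain ⟨n, hn⟩ := exists_nat_gt (max t 0)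
  have h1 : ∀ᶠ η in 𝓝 ξ, ∀ k < n, η k = ξ k := Ray.agree_mem_nhds ξ n
  have h2 : ∀ᶠ s in 𝓝 t, |max s 0 - max t 0| < ε := by
    have hc : Continuous (fun s : ℝ => |max s 0 - max t 0|) := by fun_prop
    have := hc.tendsto t
    simp only [sub_self, abs_zero] at this
    exact this.eventually (gt_mem_nhds hε)
  have h3 := h1.prod_inl_nhds t
  have h4 := h2.prod_inr_nhds ξ
  filter_upwards [h3, h4] with p hp1 hp2
  refine lt_of_le_of_lt (dist_pt_le _ _ ?_) hp2
  intro k hk
  apply hp1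
  have : (k : ℝ) < max t 0 := lt_of_lt_of_le hk (min_le_right _ _)
  exact_mod_cast this.trans hn

theorem isCompact_closedBall_root (R : ℝ) : IsCompact (Metric.closedBall root R) := by
  have h1 : IsCompact ((univ : Set Ray) ×ˢ Icc (0 : ℝ) R) := isCompact_univ.prod isCompact_Icc
  have h2 := h1.image continuous_κ
  convert h2 using 1
  ext x
  obtain ⟨ξ, t, ht, rfl⟩ := exists_pt x
  rw [Metric.mem_closedBall, dist_comm, dist_root]
  constructor
  · intro h
    refine ⟨(ξ, t), ⟨mem_univ _, ht, h⟩, ?_⟩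
    unfold κ; congr 1; exact max_eq_left ht
  · rintro ⟨⟨η, s⟩, ⟨_, hs0, hsR⟩, he⟩
    have h3 : dist root (κ (η, s)) = s := by
      unfold κ; rw [dist_root]; exact max_eq_left hs0
    rw [he, dist_root] at h3
    rw [h3]; exact hsR

instance proper : ProperSpace X := by
  refine ProperSpace.of_isCompact_closedBall_of_le 0 ?_
  intro x r _
  refine (isCompact_closedBall_root (r + dist x root)).of_isClosed_subset
    Metric.isClosed_closedBall ?_
  exact Metric.closedBall_subset_closedBall' le_rfl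

theorem σ_pt_of_ne {i : Fin 4} {ξ : Ray} (h : ξ 0 ≠ i) (t : ℝ) (ht : 0 ≤ t) :
    σ i (pt ξ t ht) = pt (Ray.σ i ξ) (t + 1) (by linarith) := by
  unfold pt
  rw [σ_mk]
  congr 1
  unfold Pre.σ
  rw [if_neg h]

theorem σ_pt_of_eq {i : Fin 4} {ξ : Ray} (h : ξ 0 = i) (t : ℝ) (ht : 1 ≤ t) :
    σ i (pt ξ t (by linarith)) = pt (Ray.σ i ξ) (t - 1) (by linarith) := by
  unfold pt
  rw [σ_mk]
  congr 1
  unfold Pre.σ
  rw [if_pos h, dif_pos ht]
  simp [Ray.σ_of_eq h]

/-- Reduced words act on the points of a ray by translation if nothing is cancelled. -/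
theorem prod_smul_pt (l : List (Fin 4)) (hl : H.Red l) (ξ : Ray) (hξ : ∀ hne : l ≠ [],
    ξ 0 ≠ l.getLast hne) (t : ℝ) (ht : 0 ≤ t) :
    H.prod l • pt ξ t ht = pt (H.prod l • ξ) (t + l.length) (by positivity) := by
  induction l with
  | nil => simp
  | cons a l ih =>
    have hl' : H.Red l := by
      unfold H.Red at *; exact hl.tail
    have hξ' : ∀ hne : l ≠ [], ξ 0 ≠ l.getLast hne := by
      intro hne
      have := hξ (by simp)
      rwa [List.getLast_cons hne] at this
    have h0 : (H.prod l • ξ : Ray) 0 ≠ a := by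
      cases l with
      | nil =>
        have := hξ (by simp)
        simpa using this
      | cons b l =>
        rw [H.first_letter hl' ξ]
        · unfold H.Red at hl
          exact (List.isChain_cons_cons.mp hl).1.symm
        · intro hcon
          have := hcon 0 (by omega)
          apply hξ' (by simp)
          rw [← this]
          simp [List.getLast_eq_getElem]
    rw [H.prod_cons, mul_smul, ih hl' hξ', s_smul, σ_pt_of_ne h0, mul_smul, H.s_smul]
    congr 1
    push_cast [List.length_cons]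
    ring

theorem exists_ray_ne (a : Fin 4) : ∃ ξ : Ray, ξ 0 ≠ a := by
  by_cases h : a = 0
  · refine ⟨Ray.tail ray0, ?_⟩
    subst h
    change (if (0 + 1) % 2 = 0 then (0 : Fin 4) else 3) ≠ 0
    decide
  · exact ⟨ray0, fun e => h e.symm⟩

theorem exists_ray_good (l : List (Fin 4)) : ∃ ξ : Ray, ∀ hne : l ≠ [], ξ 0 ≠ l.getLast hne := by
  by_cases h : l = []
  · exact ⟨ray0, fun hne => absurd h hne⟩
  · obtain ⟨ξ, hξ⟩ := exists_ray_ne (l.getLast h)
    exact ⟨ξ, fun _ => hξ⟩

theorem dist_root_prod (l : List (Fin 4)) (hl : H.Red l) :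
    dist root (H.prod l • root) = l.length := by
  obtain ⟨ξ, hξ⟩ := exists_ray_good l
  rw [← pt_zero ξ, prod_smul_pt l hl ξ hξ, pt_zero ξ, dist_root]
  simp

theorem finite_displ (R : ℝ) : {h : H | dist root (h • root) ≤ R}.Finite := by
  obtain ⟨N, hN⟩ := exists_nat_ge R
  have hf : {l : List (Fin 4) | l.length ≤ N}.Finite := List.finite_length_le _ _
  refine (hf.image H.prod).subset ?_
  intro h hh
  obtain ⟨l, hl, rfl⟩ := H.exists_red h
  refine ⟨l, ?_, rfl⟩
  have := hh
  rw [mem_ofPred_eq, dist_root_prod l hl] at this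
  exact_mod_cast this.trans hN

/-- The vertices on a ray. -/
theorem exists_vertex (ξ : Ray) (n : ℕ) : ∃ h : H, h • root = pt ξ n (Nat.cast_nonneg _) := by
  induction n generalizing ξ with
  | zero => exact ⟨1, by rw [one_smul]; simp [pt_zero]⟩
  | succ n ih =>
    obtain ⟨h, hh⟩ := ih (Ray.tail ξ)
    refine ⟨H.s (ξ 0) * h, ?_⟩
    rw [mul_smul, hh, s_smul, σ_pt_of_ne (ξ.ne 0)]
    have : Ray.σ (ξ 0) (Ray.tail ξ) = ξ := by
      rw [← Ray.σ_of_eq rfl, Ray.σ_σ]
    rw [this]
    congr 1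
    push_cast; ring

theorem geometric : GeometricAction H X where
  isometric := dist_smul
  properlyDiscontinuous := by
    intro K hK
    obtain ⟨R, hR⟩ := hK.isBounded.subset_closedBall root
    refine (finite_displ (2 * R)).subset ?_
    rintro h ⟨y, ⟨x, hx, rfl⟩, hy⟩
    have h1 := Metric.mem_closedBall.mp (hR hx)
    have h2 := Metric.mem_closedBall.mp (hR hy)
    change dist root (h • root) ≤ 2 * R
    have h3 : dist (h • x) (h • root) = dist x root := dist_smul h x root
    have h4 := dist_triangle root (h • x) (h • root)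
    simp only [] at h2
    rw [dist_comm root (h • x)] at h4
    linarith
  cocompact := by
    refine ⟨Metric.closedBall root 1, isCompact_closedBall_root 1, ?_⟩
    intro x
    obtain ⟨ξ, t, ht, rfl⟩ := exists_pt x
    obtain ⟨h, hh⟩ := exists_vertex ξ ⌊t⌋₊
    refine ⟨h, h⁻¹ • pt ξ t ht, ?_, by rw [smul_inv_smul]⟩
    rw [Metric.mem_closedBall, ← dist_smul h, smul_inv_smul, hh, dist_pt_same]
    have h1 := Nat.floor_le ht
    have h2 := Nat.lt_floor_add_one t
    rw [abs_le]; constructor <;> linarith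

end X

theorem H.pow_smul (a : Fin 4) (ha : a ≠ 0) (n : ℕ) (hn : 0 < n) (ξ : Ray) (hξ : ξ 0 ≠ a) :
    ((H.s 0 * H.s a) ^ n • ξ : Ray) 0 = 0 ∧ ((H.s 0 * H.s a) ^ n • ξ : Ray) 1 = a := by
  have one : ∀ ξ : Ray, ξ 0 ≠ a → ((H.s 0 * H.s a) • ξ : Ray) 0 = 0 ∧
      ((H.s 0 * H.s a) • ξ : Ray) 1 = a := by
    intro ξ hξ
    rw [mul_smul, H.s_smul, H.s_smul, Ray.σ_of_ne hξ]
    have h0 : (Ray.cons a ξ hξ) 0 ≠ 0 := by rw [Ray.cons_zero]; exact ha
    rw [Ray.σ_of_ne h0]
    exact ⟨rfl, rfl⟩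
  induction n with
  | zero => omega
  | succ n ih =>
    rw [pow_succ', mul_smul]
    by_cases h : n = 0
    · subst h
      rw [pow_zero, one_smul]
      exact one ξ hξ
    · apply one
      rw [(ih (by omega)).1]
      exact ha.symm

theorem H.notVirtuallyCyclic : NotVirtuallyCyclic H := by
  intro K hK hcyc
  obtain ⟨m, hm, -, hmK⟩ := Subgroup.exists_pow_mem_of_index_ne_zero hK (H.s 0 * H.s 1)
  obtain ⟨n, hn, -, hnK⟩ := Subgroup.exists_pow_mem_of_index_ne_zero hK (H.s 0 * H.s 2)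
  have hcomm : (H.s 0 * H.s 1) ^ m * (H.s 0 * H.s 2) ^ n
      = (H.s 0 * H.s 2) ^ n * (H.s 0 * H.s 1) ^ m := by
    have := IsCyclic.isMulCommutative (α := K)
    have h := this.is_comm.comm ⟨_, hmK⟩ ⟨_, hnK⟩
    exact congrArg Subtype.val h
  have e := congrArg (fun h : H => (h • Ray.tail X.ray0 : Ray) 1) hcomm
  simp only [mul_smul] at e
  have hr : (Ray.tail X.ray0) 0 = 3 := by
    change (if (0 + 1) % 2 = 0 then (0 : Fin 4) else 3) = 3
    decide
  have a1 := H.pow_smul 2 (by decide) n hn (Ray.tail X.ray0) (by rw [hr]; decide)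
  have a2 := H.pow_smul 1 (by decide) m hm (Ray.tail X.ray0) (by rw [hr]; decide)
  have b1 := H.pow_smul 1 (by decide) m hm ((H.s 0 * H.s 2) ^ n • Ray.tail X.ray0)
    (by rw [a1.1]; decide)
  have b2 := H.pow_smul 2 (by decide) n hn ((H.s 0 * H.s 1) ^ m • Ray.tail X.ray0)
    (by rw [a2.1]; decide)
  rw [b1.2, b2.2] at e
  exact absurd e (by decide)

end Pool.Agent.Helper68.CT
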