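import Pool.Agent.Helper68.CT.Act

/-!
# The boundary of the tree is the space of rays
-/

open Filter Topology Set

namespace Pool.Agent.Helper68.CT

namespace X

/-- `x` has height at least `r` and lies beyond the first `r` letters of `ξ`. -/
def Near (r : ℕ) (x : X) (ξ : Ray) : Prop := (r : ℝ) ≤ meet x (pt ξ r (Nat.cast_nonneg _))

theorem near_pt {r : ℕ} {η ξ : Ray} {t : ℝ} (ht : 0 ≤ t) :
    Near r (pt η t ht) ξ ↔ (r : ℝ) ≤ t ∧ ∀ k < r, η k = ξ k := by
  unfold Near
  rw [meet_pt, Pre.le_meet_iff]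
  constructor
  · rintro ⟨h1, -, h3⟩
    exact ⟨h1, fun k hk => h3 k (by exact_mod_cast hk)⟩
  · rintro ⟨h1, h3⟩
    exact ⟨h1, le_rfl, fun k hk => h3 k (by exact_mod_cast hk)⟩

theorem near_mono {r r' : ℕ} (h : r' ≤ r) {x : X} {ξ : Ray} (hx : Near r x ξ) :
    Near r' x ξ := by
  obtain ⟨η, t, ht, rfl⟩ := exists_pt x
  rw [near_pt] at *
  exact ⟨le_trans (by exact_mod_cast h) hx.1, fun k hk => hx.2 k (by omega)⟩

theorem meet_of_near {r : ℕ} {x y : X} {ξ : Ray} (hx : Near r x ξ) (hy : Near r y ξ) :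
    (r : ℝ) ≤ meet x y := by
  unfold Near at *
  rw [meet_comm] at hy
  exact (le_min hx hy).trans (meet_ultra _ _ _)

theorem near_of_meet {r : ℕ} {x y : X} {ξ : Ray} (hx : Near r x ξ) (hy : (r : ℝ) ≤ meet x y) :
    Near r y ξ := by
  unfold Near at *
  rw [meet_comm] at hy
  exact (le_min hy hx).trans (meet_ultra _ _ _)

theorem near_ray {r : ℕ} (ξ : Ray) {m : ℕ} (h : r ≤ m) :
    Near r (pt ξ m (Nat.cast_nonneg _)) ξ := by
  rw [near_pt]; exact ⟨by exact_mod_cast h, fun _ _ => rfl⟩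

theorem near_unique {r : ℕ} {x : X} {ξ η : Ray} (h1 : Near r x ξ) (h2 : Near r x η) :
    ∀ k < r, ξ k = η k := by
  obtain ⟨ζ, t, ht, rfl⟩ := exists_pt x
  rw [near_pt] at h1 h2
  intro k hk
  rw [← h1.2 k hk, h2.2 k hk]

theorem toInfinity_iff {x y : ℕ → X} : ToInfinity x y ↔
    ∀ r : ℕ, ∃ N, ∀ i ≥ N, ∀ j ≥ N, (r : ℝ) ≤ meet (x i) (y j) := by
  constructor
  · intro h r
    have := (h root).eventually_ge_atTop (r : ℝ)
    rw [eventually_atTop] at this
    obtain ⟨⟨a, b⟩, hab⟩ := this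
    exact ⟨max a b, fun i hi j hj => hab (i, j) ⟨(le_max_left _ _).trans hi,
      (le_max_right _ _).trans hj⟩⟩
  · intro h o
    have h1 : Tendsto (fun p : ℕ × ℕ => meet (x p.1) (y p.2)) atTop atTop := by
      rw [tendsto_atTop]
      intro b
      obtain ⟨r, hr⟩ := exists_nat_ge b
      obtain ⟨N, hN⟩ := h r
      rw [eventually_atTop]
      exact ⟨(N, N), fun p hp => hr.trans (hN p.1 hp.1 p.2 hp.2)⟩
    refine tendsto_atTop_mono ?_ (tendsto_atTop_add_const_right _ (-dist o root) h1)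
    intro p
    unfold meet gromovProduct
    have a1 := dist_triangle root o (x p.1)
    have a2 := dist_triangle root o (y p.2)
    rw [dist_comm root o] at a1 a2
    linarith

/-- Convergence of a sequence to a ray. -/
def Lim (x : ℕ → X) (ξ : Ray) : Prop := ∀ r : ℕ, ∀ᶠ n in atTop, Near r (x n) ξ

theorem lim_ray (ξ : Ray) : Lim (fun n => pt ξ n (Nat.cast_nonneg _)) ξ := by
  intro r
  filter_upwards [eventually_ge_atTop r] with n hn
  exact near_ray ξ hn

theorem toInfinity_of_lim {x y : ℕ → X} {ξ : Ray} (hx : Lim x ξ) (hy : Lim y ξ) :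
    ToInfinity x y := by
  rw [toInfinity_iff]
  intro r
  obtain ⟨N, hN⟩ := eventually_atTop.mp (hx r)
  obtain ⟨M, hM⟩ := eventually_atTop.mp (hy r)
  exact ⟨max N M, fun i hi j hj => meet_of_near (hN i ((le_max_left _ _).trans hi))
    (hM j ((le_max_right _ _).trans hj))⟩

theorem lim_of_toInfinity {x y : ℕ → X} {ξ : Ray} (hx : Lim x ξ) (h : ToInfinity x y) :
    Lim y ξ := by
  intro r
  rw [toInfinity_iff] at h
  obtain ⟨N, hN⟩ := h r
  obtain ⟨M, hM⟩ := eventually_atTop.mp (hx r)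
  filter_upwards [eventually_ge_atTop N] with n hn
  exact near_of_meet (hM (max N M) (le_max_right _ _)) (hN _ (le_max_left _ _) _ hn)

theorem lim_unique {x : ℕ → X} {ξ η : Ray} (h1 : Lim x ξ) (h2 : Lim x η) : ξ = η := by
  ext k
  obtain ⟨n, hn1, hn2⟩ := ((h1 (k + 1)).and (h2 (k + 1))).exists
  rw [near_unique hn1 hn2 k (by omega)]

theorem exists_lim {x : ℕ → X} (h : ToInfinity x x) : ∃ ξ, Lim x ξ := by
  rw [toInfinity_iff] at h
  choose N hN using h
  choose η t ht hx using fun n => exists_pt (x n)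
  have agree : ∀ r, ∀ i ≥ N r, ∀ j ≥ N r, ∀ k < r, η i k = η j k := by
    intro r i hi j hj k hk
    have := hN r i hi j hj
    rw [← hx i, ← hx j, meet_pt, Pre.le_meet_iff] at this
    exact this.2.2 k (by exact_mod_cast hk)
  refine ⟨⟨fun k => η (N (k + 1)) k, ?_⟩, ?_⟩
  · intro k
    have e1 := agree (k + 1 + 1) (N (k + 1 + 1)) le_rfl (max (N (k + 1)) (N (k + 1 + 1)))
      (le_max_right _ _) (k + 1) (by omega)
    have e2 := agree (k + 1) (N (k + 1)) le_rfl (max (N (k + 1)) (N (k + 1 + 1)))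
      (le_max_left _ _) k (by omega)
    change (η (N (k + 1 + 1))) (k + 1) ≠ (η (N (k + 1))) k
    rw [e1, e2]
    exact (η _).ne k
  · intro r
    have h1 : ∀ᶠ n in atTop, ∀ k < r, N (k + 1) ≤ n := by
      have : ∀ᶠ n in atTop, ∀ k ∈ Finset.range r, N (k + 1) ≤ n := by
        rw [Filter.eventually_all_finset]
        intro k _
        exact eventually_ge_atTop _
      filter_upwards [this] with n hn k hk
      exact hn k (Finset.mem_range.mpr hk)
    filter_upwards [h1, eventually_ge_atTop (N r)] with n hn hr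
    rw [← hx n, near_pt]
    constructor
    · have := hN r n hr n hr
      rw [← hx n, meet_pt, Pre.le_meet_iff] at this
      exact this.1
    · intro k hk
      exact agree (k + 1) n (hn k hk) (N (k + 1)) le_rfl k (by omega)

/-- The Gromov sequence along a ray. -/
noncomputable def seqOf (ξ : Ray) : GromovSeq X :=
  ⟨fun n => pt ξ n (Nat.cast_nonneg _), toInfinity_of_lim (lim_ray ξ) (lim_ray ξ)⟩

/-- The ray to which a Gromov sequence converges. -/
noncomputable def rayOf (x : GromovSeq X) : Ray := (exists_lim x.2).choose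

theorem lim_rayOf (x : GromovSeq X) : Lim x.1 (rayOf x) := (exists_lim x.2).choose_spec

theorem rayOf_eq {x : GromovSeq X} {ξ : Ray} (h : Lim x.1 ξ) : rayOf x = ξ :=
  lim_unique (lim_rayOf x) h

/-- The ray of a boundary point. -/
noncomputable def bR : Boundary X → Ray := Quot.lift rayOf (by
  intro x y h
  exact (rayOf_eq (lim_of_toInfinity (lim_rayOf x) h)).symm)

@[simp] theorem bR_mk (x : GromovSeq X) : bR (Boundary.mk x) = rayOf x := rfl

/-- The boundary point of a ray. -/
noncomputable def rB (ξ : Ray) : Boundary X := Boundary.mk (seqOf ξ)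

@[simp] theorem bR_rB (ξ : Ray) : bR (rB ξ) = ξ := rayOf_eq (lim_ray ξ)

theorem mk_eq_rB (x : GromovSeq X) : Boundary.mk x = rB (rayOf x) :=
  Quot.sound (toInfinity_of_lim (lim_rayOf x) (lim_ray _))

@[simp] theorem rB_bR (p : Boundary X) : rB (bR p) = p := by
  induction p using Quot.ind with
  | mk x => exact (mk_eq_rB x).symm

theorem bR_injective : Function.Injective bR := by
  intro p q h
  rw [← rB_bR p, ← rB_bR q, h]

theorem near_smul (i : Fin 4) {r : ℕ} {x : X} {ξ : Ray} (h : Near (r + 1) x ξ) :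
    Near r (σ i x) (Ray.σ i ξ) := by
  obtain ⟨η, t, ht, rfl⟩ := exists_pt x
  rw [near_pt] at h
  obtain ⟨h1, h2⟩ := h
  push_cast at h1
  have h0 : η 0 = ξ 0 := h2 0 (by omega)
  by_cases hi : ξ 0 = i
  · have hi' : η 0 = i := h0.trans hi
    rw [σ_pt_of_eq hi' t (by linarith [(Nat.cast_nonneg r : (0 : ℝ) ≤ r)]), near_pt,
      Ray.σ_of_eq hi, Ray.σ_of_eq hi']
    exact ⟨by linarith, fun k hk => h2 (k + 1) (by omega)⟩
  · have hi' : η 0 ≠ i := by rw [h0]; exact hi
    rw [σ_pt_of_ne hi', near_pt, Ray.σ_of_ne hi, Ray.σ_of_ne hi']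
    refine ⟨by linarith, fun k hk => ?_⟩
    cases k with
    | zero => rfl
    | succ k => exact h2 k (by omega)

theorem lim_smul (h : H) {x : ℕ → X} {ξ : Ray} (hx : Lim x ξ) :
    Lim (fun n => h • x n) (h • ξ) := by
  obtain ⟨l, -, rfl⟩ := H.exists_red h
  induction l with
  | nil => simpa using hx
  | cons i l ih =>
    intro r
    filter_upwards [ih (r + 1)] with n hn
    rw [H.prod_cons, mul_smul, mul_smul, s_smul, H.s_smul]
    exact near_smul i hn

theorem rayOf_smul (h : H) (x y : GromovSeq X) (hxy : ∀ n, y.1 n = h • x.1 n) :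
    rayOf y = h • rayOf x := by
  apply rayOf_eq
  have : y.1 = fun n => h • x.1 n := funext hxy
  rw [this]
  exact lim_smul h (lim_rayOf x)

theorem boundaryProduct_self (p : Boundary X) : boundaryProduct root p p = ⊤ := by
  rw [eq_top_iff]
  unfold boundaryProduct
  obtain ⟨x, rfl⟩ : ∃ x, Boundary.mk x = p := Quot.exists_rep p
  have h1 : Tendsto (fun ij : ℕ × ℕ => ((gromovProduct root (x.1 ij.1) (x.1 ij.2) : ℝ) : EReal))
      atTop (𝓝 ⊤) := EReal.tendsto_coe_atTop.comp (x.2 root)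
  refine le_trans ?_ (le_iSup _ x)
  refine le_trans ?_ (le_iSup _ x)
  refine le_trans ?_ (le_iSup _ rfl)
  refine le_trans ?_ (le_iSup _ rfl)
  rw [h1.liminf_eq]

theorem boundaryProduct_ne {p q : Boundary X} (h : p ≠ q) :
    boundaryProduct root p q = ((Pre.fd (bR p) (bR q) : ℝ) : EReal) := by
  have hne : bR p ≠ bR q := fun e => h (bR_injective e)
  have key : ∀ x y : GromovSeq X, Boundary.mk x = p → Boundary.mk y = q →
      liminf (fun ij : ℕ × ℕ => ((gromovProduct root (x.1 ij.1) (y.1 ij.2) : ℝ) : EReal)) atTop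
        = ((Pre.fd (bR p) (bR q) : ℝ) : EReal) := by
    intro x y hx hy
    have hx' : rayOf x = bR p := by rw [← hx]; rfl
    have hy' : rayOf y = bR q := by rw [← hy]; rfl
    obtain ⟨N, hN⟩ := eventually_atTop.mp (lim_rayOf x (Pre.fd (bR p) (bR q) + 1))
    obtain ⟨M, hM⟩ := eventually_atTop.mp (lim_rayOf y (Pre.fd (bR p) (bR q) + 1))
    have : (fun ij : ℕ × ℕ => ((gromovProduct root (x.1 ij.1) (y.1 ij.2) : ℝ) : EReal))
        =ᶠ[atTop] fun _ => ((Pre.fd (bR p) (bR q) : ℝ) : EReal) := by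
      rw [EventuallyEq, eventually_atTop]
      refine ⟨(N, M), fun ij hij => ?_⟩
      have a := hN ij.1 hij.1
      have b := hM ij.2 hij.2
      rw [hx'] at a
      rw [hy'] at b
      congr 1
      change meet _ _ = _
      obtain ⟨ζ, s, hs, e1⟩ := exists_pt (x.1 ij.1)
      obtain ⟨ω, t, ht, e2⟩ := exists_pt (y.1 ij.2)
      rw [← e1, near_pt] at a
      rw [← e2, near_pt] at b
      rw [← e1, ← e2, meet_pt]
      have ha := a.1
      have hb := b.1
      push_cast at ha hb
      refine Pre.meet_eq (by simp only []; linarith) (by simp only []; linarith) ?_ ?_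
      · intro k hk
        have hk' : k < Pre.fd (bR p) (bR q) := by exact_mod_cast hk
        change ζ k = ω k
        rw [a.2 k (by omega), b.2 k (by omega)]
        exact Pre.apply_eq_of_lt_fd hk'
      · right; right
        refine ⟨_, rfl, ?_⟩
        change ζ _ ≠ ω _
        rw [a.2 _ (Nat.lt_succ_self _), b.2 _ (Nat.lt_succ_self _)]
        exact Pre.apply_fd_ne hne
    rw [liminf_congr this, liminf_const]
  unfold boundaryProduct
  apply le_antisymm
  · refine iSup_le fun x => iSup_le fun y => iSup_le fun hx => iSup_le fun hy => ?_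
    rw [key x y hx hy]
  · obtain ⟨x, hx⟩ : ∃ x, Boundary.mk x = p := Quot.exists_rep p
    obtain ⟨y, hy⟩ : ∃ y, Boundary.mk y = q := Quot.exists_rep q
    refine le_trans ?_ (le_iSup _ x)
    refine le_trans ?_ (le_iSup _ y)
    refine le_trans ?_ (le_iSup _ hx)
    refine le_trans ?_ (le_iSup _ hy)
    rw [key x y hx hy]

theorem expNeg_self (a : ℝ) (p : Boundary X) : expNeg a (boundaryProduct root p p) = 0 := by
  rw [boundaryProduct_self]; exact if_pos rfl

theorem expNeg_ne (a : ℝ) {p q : Boundary X} (h : p ≠ q) :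
    expNeg a (boundaryProduct root p q) = a ^ (-(Pre.fd (bR p) (bR q) : ℝ)) := by
  rw [boundaryProduct_ne h]
  unfold expNeg
  rw [if_neg (EReal.coe_ne_top _), EReal.toReal_coe]

end X

open Classical in
/-- The metric `a ^ (-fd)` on the boundary. -/
@[instance_reducible]
noncomputable def visMetric (a : ℝ) (ha : 1 < a) : MetricSpace (Boundary X) where
  dist p q := if p = q then 0 else a ^ (-(Pre.fd (X.bR p) (X.bR q) : ℝ))
  dist_self p := if_pos rfl
  dist_comm p q := by
    by_cases h : p = q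
    · subst h; rfl
    · rw [if_neg h, if_neg (fun e => h e.symm), Pre.fd_comm]
  dist_triangle p q r := by
    have pos : ∀ p q : Boundary X,
        (0 : ℝ) ≤ if p = q then 0 else a ^ (-(Pre.fd (X.bR p) (X.bR q) : ℝ)) := by
      intro p q; split_ifs
      · exact le_rfl
      · exact Real.rpow_nonneg (by linarith) _
    by_cases h1 : p = r
    · rw [if_pos h1]; linarith [pos p q, pos q r]
    by_cases h2 : p = q
    · subst h2; rw [if_pos rfl, zero_add]
    by_cases h3 : q = r
    · subst h3; linarith [pos q q]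
    have hm := PiNat.min_firstDiff_le (E := fun _ => Fin 4) (X.bR p).1 (X.bR q).1 (X.bR r).1
      (fun e => h1 (X.bR_injective (Subtype.ext e)))
    have hm' : min (Pre.fd (X.bR p) (X.bR q)) (Pre.fd (X.bR q) (X.bR r)) ≤
      Pre.fd (X.bR p) (X.bR r) := hm
    have q1 := pos p q
    have q2 := pos q r
    rw [if_neg h2] at q1
    rw [if_neg h3] at q2
    rw [if_neg h1, if_neg h2, if_neg h3]
    rcases min_le_iff.mp hm' with h | h
    · have : a ^ (-(Pre.fd (X.bR p) (X.bR r) : ℝ)) ≤ a ^ (-(Pre.fd (X.bR p) (X.bR q) : ℝ)) := by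
        apply Real.rpow_le_rpow_of_exponent_le ha.le
        have : (Pre.fd (X.bR p) (X.bR q) : ℝ) ≤ Pre.fd (X.bR p) (X.bR r) := by exact_mod_cast h
        linarith
      linarith
    · have : a ^ (-(Pre.fd (X.bR p) (X.bR r) : ℝ)) ≤ a ^ (-(Pre.fd (X.bR q) (X.bR r) : ℝ)) := by
        apply Real.rpow_le_rpow_of_exponent_le ha.le
        have : (Pre.fd (X.bR q) (X.bR r) : ℝ) ≤ Pre.fd (X.bR p) (X.bR r) := by exact_mod_cast h
        linarith
      linarith
  eq_of_dist_eq_zero := by
    intro p q h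
    by_contra hne
    change (if p = q then (0 : ℝ) else _) = 0 at h
    rw [if_neg hne] at h
    exact absurd h (Real.rpow_pos_of_pos (by linarith) _).ne'

open Classical in
theorem visMetric_isVisual (a : ℝ) (ha : 1 < a) : IsVisual a X.root (visMetric a ha) := by
  refine ⟨1, le_rfl, fun p q => ?_⟩
  change _ ≤ (if p = q then (0 : ℝ) else a ^ (-(Pre.fd (X.bR p) (X.bR q) : ℝ))) ∧
    (if p = q then (0 : ℝ) else a ^ (-(Pre.fd (X.bR p) (X.bR q) : ℝ))) ≤ _
  by_cases h : p = q
  · subst h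
    rw [X.expNeg_self, if_pos rfl]; simp
  · rw [X.expNeg_ne a h, if_neg h]; simp

end Pool.Agent.Helper68.CT
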