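import Pool.Agent.Helper68.CT.ZZ

/-!
# The Cannon-Thurston map is continuous and the set of preimages of the non-conical points has
positive Hausdorff dimension, for every visual metric
-/

open Filter Topology Set
open scoped NNReal ENNReal

namespace Pool.Agent.Helper68.CT

open X

/-- The Cannon-Thurston map. -/
noncomputable def iB (p : Boundary X) : Z := Z.mk (bR p)

theorem equivariant_iB : Equivariant H iB := by
  intro h x y hxy
  unfold iB
  rw [Z.smul_mk]
  congr 1
  exact rayOf_smul h x y hxy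

theorem gromovProduct_change (o x y : X) :
    |gromovProduct o x y - gromovProduct root x y| ≤ dist o root := by
  unfold gromovProduct
  have a1 := dist_triangle root o x
  have a2 := dist_triangle root o y
  have a3 := dist_triangle o root x
  have a4 := dist_triangle o root y
  rw [dist_comm root o] at a1 a2
  rw [abs_le]
  constructor <;> linarith

theorem boundaryProduct_self' (o : X) (p : Boundary X) : boundaryProduct o p p = ⊤ := by
  rw [eq_top_iff]
  unfold boundaryProduct
  obtain ⟨x, rfl⟩ : ∃ x, Boundary.mk x = p := Quot.exists_rep p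
  have h1 : Tendsto (fun ij : ℕ × ℕ => ((gromovProduct o (x.1 ij.1) (x.1 ij.2) : ℝ) : EReal))
      atTop (𝓝 ⊤) := EReal.tendsto_coe_atTop.comp (x.2 o)
  refine le_trans ?_ (le_iSup _ x)
  refine le_trans ?_ (le_iSup _ x)
  refine le_trans ?_ (le_iSup _ rfl)
  refine le_trans ?_ (le_iSup _ rfl)
  rw [h1.liminf_eq]

theorem liminf_bounds (o : X) {p q : Boundary X} (h : p ≠ q) (x y : GromovSeq X)
    (hx : Boundary.mk x = p) (hy : Boundary.mk y = q) :
    (((Pre.fd (bR p) (bR q) : ℝ) - dist o root : ℝ) : EReal) ≤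
        liminf (fun ij : ℕ × ℕ => ((gromovProduct o (x.1 ij.1) (y.1 ij.2) : ℝ) : EReal)) atTop ∧
      liminf (fun ij : ℕ × ℕ => ((gromovProduct o (x.1 ij.1) (y.1 ij.2) : ℝ) : EReal)) atTop ≤
        (((Pre.fd (bR p) (bR q) : ℝ) + dist o root : ℝ) : EReal) := by
  have hne : bR p ≠ bR q := fun e => h (bR_injective e)
  have hx' : rayOf x = bR p := by rw [← hx]; rfl
  have hy' : rayOf y = bR q := by rw [← hy]; rfl
  obtain ⟨N, hN⟩ := eventually_atTop.mp (lim_rayOf x (Pre.fd (bR p) (bR q) + 1))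
  obtain ⟨M, hM⟩ := eventually_atTop.mp (lim_rayOf y (Pre.fd (bR p) (bR q) + 1))
  have ev : ∀ᶠ ij : ℕ × ℕ in atTop,
      gromovProduct root (x.1 ij.1) (y.1 ij.2) = Pre.fd (bR p) (bR q) := by
    rw [eventually_atTop]
    refine ⟨(N, M), fun ij hij => ?_⟩
    have a := hN ij.1 hij.1
    have b := hM ij.2 hij.2
    rw [hx'] at a
    rw [hy'] at b
    change meet _ _ = _
    obtain ⟨ζ, s, hs, e1⟩ := exists_pt (x.1 ij.1)
    obtain ⟨ω, t, ht, e2⟩ := exists_pt (y.1 ij.2)
    rw [← e1, near_pt] at a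
    rw [← e2, near_pt] at b
    rw [← e1, ← e2, meet_pt]
    have ha := a.1
    have hb := b.1
    push_cast at ha hb
    refine Pre.meet_eq (by simp only []; linarith) (by simp only []; linarith) ?_ ?_
    · intro k hk
      have hk' : k < Pre.fd (bR p) (bR q) := by exact_mod_cast hk
      change ζ k = ω k
      rw [a.2 k (by omega), b.2 k (by omega)]
      exact Pre.apply_eq_of_lt_fd hk'
    · right; right
      refine ⟨_, rfl, ?_⟩
      change ζ _ ≠ ω _
      rw [a.2 _ (Nat.lt_succ_self _), b.2 _ (Nat.lt_succ_self _)]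
      exact Pre.apply_fd_ne hne
  constructor
  · apply le_liminf_of_le
    · isBoundedDefault
    · filter_upwards [ev] with ij hij
      have := gromovProduct_change o (x.1 ij.1) (y.1 ij.2)
      rw [hij, abs_le] at this
      exact_mod_cast (by linarith : (Pre.fd (bR p) (bR q) : ℝ) - dist o root ≤
        gromovProduct o (x.1 ij.1) (y.1 ij.2))
  · apply liminf_le_of_le
    · isBoundedDefault
    · intro b hb
      obtain ⟨ij, h1, hij⟩ := (hb.and ev).exists
      refine h1.trans ?_
      have := gromovProduct_change o (x.1 ij.1) (y.1 ij.2)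
      rw [hij, abs_le] at this
      exact_mod_cast (by linarith : gromovProduct o (x.1 ij.1) (y.1 ij.2) ≤
        (Pre.fd (bR p) (bR q) : ℝ) + dist o root)

theorem boundaryProduct_bounds (o : X) {p q : Boundary X} (h : p ≠ q) :
    (((Pre.fd (bR p) (bR q) : ℝ) - dist o root : ℝ) : EReal) ≤ boundaryProduct o p q ∧
      boundaryProduct o p q ≤ (((Pre.fd (bR p) (bR q) : ℝ) + dist o root : ℝ) : EReal) := by
  unfold boundaryProduct
  constructor
  · obtain ⟨x, hx⟩ : ∃ x, Boundary.mk x = p := Quot.exists_rep p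
    obtain ⟨y, hy⟩ : ∃ y, Boundary.mk y = q := Quot.exists_rep q
    refine le_trans ?_ (le_iSup _ x)
    refine le_trans ?_ (le_iSup _ y)
    refine le_trans ?_ (le_iSup _ hx)
    refine le_trans ?_ (le_iSup _ hy)
    exact (liminf_bounds o h x y hx hy).1
  · exact iSup_le fun x => iSup_le fun y => iSup_le fun hx => iSup_le fun hy =>
      (liminf_bounds o h x y hx hy).2

theorem expNeg_bounds (o : X) {a : ℝ} (ha : 1 < a) {p q : Boundary X} (h : p ≠ q) :
    a ^ (-(dist o root)) * a ^ (-(Pre.fd (bR p) (bR q) : ℝ)) ≤ expNeg a (boundaryProduct o p q) ∧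
      expNeg a (boundaryProduct o p q) ≤
        a ^ (dist o root) * a ^ (-(Pre.fd (bR p) (bR q) : ℝ)) := by
  obtain ⟨h1, h2⟩ := boundaryProduct_bounds o h
  have ht : boundaryProduct o p q ≠ ⊤ := fun e => by
    rw [e] at h2
    exact absurd h2 (not_le.mpr (EReal.coe_lt_top _))
  have hb : boundaryProduct o p q ≠ ⊥ := fun e => by
    rw [e] at h1
    exact absurd h1 (not_le.mpr (EReal.bot_lt_coe _))
  lift boundaryProduct o p q to ℝ using ⟨ht, hb⟩ with t
  rw [EReal.coe_le_coe_iff] at h1 h2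
  unfold expNeg
  rw [if_neg (EReal.coe_ne_top _), EReal.toReal_coe, ← Real.rpow_add (by linarith),
    ← Real.rpow_add (by linarith)]
  constructor
  · apply Real.rpow_le_rpow_of_exponent_le ha.le; linarith
  · apply Real.rpow_le_rpow_of_exponent_le ha.le; linarith

/-- What is used of a visual metric. -/
theorem visual_bounds {o : X} {a : ℝ} (ha : 1 < a) {d : MetricSpace (Boundary X)}
    (hd : IsVisual a o d) : ∃ C : ℝ, 0 < C ∧ ∀ p q : Boundary X, p ≠ q →
      a ^ (-(Pre.fd (bR p) (bR q) : ℝ)) ≤ C * d.dist p q := by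
  obtain ⟨C, hC, h⟩ := hd
  refine ⟨a ^ (dist o root) * C, by positivity, fun p q hpq => ?_⟩
  have h1 := (h p q).1
  have h2 := (expNeg_bounds o ha hpq).1
  have hC0 : 0 < C := by linarith
  have h3 : C⁻¹ * (a ^ (-(dist o root)) * a ^ (-(Pre.fd (bR p) (bR q) : ℝ))) ≤ d.dist p q :=
    (mul_le_mul_of_nonneg_left h2 (by positivity)).trans h1
  rw [Real.rpow_neg (by linarith : (0 : ℝ) ≤ a) (dist o root)] at h3
  have hpos : 0 < a ^ (dist o root) := Real.rpow_pos_of_pos (by linarith) _
  rw [inv_mul_le_iff₀ hC0, inv_mul_le_iff₀ hpos] at h3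
  linarith [h3]

theorem exists_visual (o : X) {a : ℝ} (ha : 1 < a) : ∃ d, IsVisual (X := X) a o d := by
  refine ⟨visMetric a ha, a ^ (dist o root), ?_, ?_⟩
  · exact Real.one_le_rpow ha.le dist_nonneg
  · intro p q
    have h0 := (visMetric_isVisual a ha).choose_spec
    have hpos : 0 < a ^ (dist o root) := Real.rpow_pos_of_pos (by linarith) _
    by_cases h : p = q
    · subst h
      have e : expNeg a (boundaryProduct o p p) = 0 := by
        rw [boundaryProduct_self']; exact if_pos rfl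
      have e2 : (visMetric a ha).dist p p = 0 := (visMetric a ha).dist_self p
      rw [e, e2]; simp
    · have e2 : (visMetric a ha).dist p q = a ^ (-(Pre.fd (bR p) (bR q) : ℝ)) := if_neg h
      rw [e2]
      obtain ⟨h1, h2⟩ := expNeg_bounds o ha h
      rw [Real.rpow_neg (by linarith : (0 : ℝ) ≤ a) (dist o root)] at h1
      rw [inv_mul_le_iff₀ hpos] at h1
      constructor
      · rw [inv_mul_le_iff₀ hpos]; exact h2
      · exact h1

theorem continuousWith_iB {o : X} {a : ℝ} (ha : 1 < a) {d : MetricSpace (Boundary X)}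
    (hd : IsVisual a o d) : ContinuousWith d iB := by
  obtain ⟨C, hC, h⟩ := visual_bounds ha hd
  let _ := d
  change Continuous iB
  rw [continuous_iff_continuousAt]
  intro p U hU
  have hU' : Z.mk ⁻¹' U ∈ 𝓝 (bR p) := Z.continuous_mk.continuousAt.preimage_mem_nhds hU
  obtain ⟨n, hn⟩ := Ray.exists_agree hU'
  change iB ⁻¹' U ∈ 𝓝 p
  rw [Metric.mem_nhds_iff]
  refine ⟨C⁻¹ * a ^ (-(n : ℝ)), by positivity, ?_⟩
  intro q hq
  rw [Metric.mem_ball] at hq
  by_cases hpq : q = p
  · subst hpq
    change iB q ∈ U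
    exact mem_of_mem_nhds hU
  · have h1 : a ^ (-(Pre.fd (bR q) (bR p) : ℝ)) ≤ C * dist q p := h q p hpq
    have h2 : C * dist q p < a ^ (-(n : ℝ)) := by
      rw [lt_inv_mul_iff₀ hC] at hq
      exact hq
    have h3 := (Real.rpow_lt_rpow_left_iff ha).mp (lt_of_le_of_lt h1 h2)
    apply hn
    intro k hk
    apply Pre.apply_eq_of_lt_fd
    have : (n : ℝ) < Pre.fd (bR q) (bR p) := by linarith
    have : n < Pre.fd (bR q) (bR p) := by exact_mod_cast this
    omega

/-- The cyclic successor of a letter different from `3`. -/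
def nxt (a : Fin 4) : Fin 4 := if a = 0 then 1 else if a = 1 then 2 else 0

/-- The binary digits of a ray. -/
def dig (ξ : Ray) : ℕ → Fin 2 := fun n => if ξ (n + 1) = nxt (ξ n) then 1 else 0

/-- The ray with given digits. -/
def build (b : ℕ → Fin 2) : ℕ → Fin 4
  | 0 => 0
  | n + 1 => if b n = 1 then nxt (build b n) else nxt (nxt (build b n))

theorem nxt_ne_three (a : Fin 4) : nxt a ≠ 3 := by revert a; decide

theorem nxt_ne (a : Fin 4) : nxt a ≠ a := by revert a; decide

theorem nxt_nxt_ne (a : Fin 4) (h : a ≠ 3) : nxt (nxt a) ≠ a := by revert a; decide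

theorem nxt_nxt_ne' (a : Fin 4) : nxt (nxt a) ≠ nxt a := nxt_ne _

theorem build_ne_three (b : ℕ → Fin 2) (n : ℕ) : build b n ≠ 3 := by
  cases n with
  | zero => change (0 : Fin 4) ≠ 3; decide
  | succ n =>
    unfold build; split_ifs <;> exact nxt_ne_three _

/-- The ray with given digits. -/
def buildRay (b : ℕ → Fin 2) : Ray := ⟨build b, fun n => by
  change (if b n = 1 then nxt (build b n) else nxt (nxt (build b n))) ≠ build b n
  split_ifs
  · exact nxt_ne _
  · exact nxt_nxt_ne _ (build_ne_three b n)⟩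

theorem dig_buildRay (b : ℕ → Fin 2) : dig (buildRay b) = b := by
  funext n
  unfold dig
  change (if (if b n = 1 then nxt (build b n) else nxt (nxt (build b n))) = nxt (build b n)
    then (1 : Fin 2) else 0) = b n
  by_cases h : b n = 1
  · rw [if_pos h, if_pos rfl, h]
  · rw [if_neg h, if_neg (nxt_nxt_ne' _)]
    have : ∀ x : Fin 2, x ≠ 1 → 0 = x := by decide
    exact this _ h

/-- The map to the unit interval. -/
noncomputable def φ (p : Boundary X) : ℝ := Real.ofDigits (dig (bR p))

theorem φ_surj : Icc (0 : ℝ) 1 ⊆ φ '' (iB ⁻¹' nonConical H Z) := by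
  intro t ht
  obtain ⟨b, -, hb⟩ := Real.ofDigits_SurjOn (b := 2) (by norm_num) ht
  refine ⟨rB (buildRay b), ?_, ?_⟩
  · change Z.mk (bR (rB (buildRay b))) ∈ nonConical H Z
    rw [bR_rB]
    exact mem_nonConical _ (build_ne_three b)
  · unfold φ
    rw [bR_rB, dig_buildRay, hb]

theorem φ_bound (p q : Boundary X) :
    |φ p - φ q| ≤ 2 * (2 : ℝ) ^ (-(Pre.fd (bR p) (bR q) : ℝ)) := by
  unfold φ
  have h1 := Real.abs_ofDigits_sub_ofDigits_le (b := 2) (x := dig (bR p)) (y := dig (bR q))
    (n := Pre.fd (bR p) (bR q) - 1) (by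
      intro i hi
      unfold dig
      have e1 : (bR p) i = (bR q) i := Pre.apply_eq_of_lt_fd (by omega)
      have e2 : (bR p) (i + 1) = (bR q) (i + 1) := Pre.apply_eq_of_lt_fd (by omega)
      rw [e1, e2])
  refine h1.trans ?_
  push_cast
  rw [Real.rpow_neg (by norm_num), Real.rpow_natCast]
  by_cases h0 : Pre.fd (bR p) (bR q) = 0
  · rw [h0]; norm_num
  · obtain ⟨m, hm⟩ := Nat.exists_eq_succ_of_ne_zero h0
    rw [hm, Nat.succ_sub_one, pow_succ, mul_inv]
    rw [show 2 * (((2 : ℝ) ^ m)⁻¹ * 2⁻¹) = ((2 : ℝ) ^ m)⁻¹ by ring]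

theorem dim_pos {o : X} {a : ℝ} (ha : 1 < a) {d : MetricSpace (Boundary X)}
    (hd : IsVisual a o d) : 0 < dimWith d (iB ⁻¹' nonConical H Z) := by
  obtain ⟨C, hC, h⟩ := visual_bounds ha hd
  let _ := d
  change 0 < dimH (iB ⁻¹' nonConical H Z)
  set s := iB ⁻¹' nonConical H Z with hs
  set r : ℝ := Real.log 2 / Real.log a with hr
  have hla : 0 < Real.log a := Real.log_pos ha
  have hl2 : 0 < Real.log 2 := Real.log_pos (by norm_num)
  have hr0 : 0 < r := by positivity
  have hpow : ∀ n : ℕ, (2 : ℝ) ^ (-(n : ℝ)) = (a ^ (-(n : ℝ))) ^ r := by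
    intro n
    rw [← Real.rpow_mul (by linarith), Real.rpow_def_of_pos (by norm_num : (0 : ℝ) < 2),
      Real.rpow_def_of_pos (by linarith : 0 < a)]
    congr 1
    rw [hr]; field_simp
  have hold : ∀ p q : Boundary X, |φ p - φ q| ≤ 2 * C ^ r * dist p q ^ r := by
    intro p q
    by_cases hpq : p = q
    · subst hpq
      simp only [sub_self, abs_zero, dist_self]
      positivity
    · refine (φ_bound p q).trans ?_
      rw [hpow, mul_assoc, ← Real.mul_rpow hC.le dist_nonneg]
      have := Real.rpow_le_rpow (Real.rpow_nonneg (by linarith) _) (h p q hpq) hr0.le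
      have h5 : (a ^ (-(Pre.fd (bR p) (bR q) : ℝ))) ^ r ≤ (C * dist p q) ^ r := this
      linarith
  have hH : HolderOnWith (2 * C ^ r).toNNReal r.toNNReal φ s := by
    intro p _ q _
    rw [edist_dist, edist_dist, Real.dist_eq]
    have e1 : ((2 * C ^ r).toNNReal : ℝ≥0∞) = ENNReal.ofReal (2 * C ^ r) := rfl
    rw [e1, Real.coe_toNNReal r hr0.le, ENNReal.ofReal_rpow_of_nonneg dist_nonneg hr0.le,
      ← ENNReal.ofReal_mul (by positivity)]
    exact ENNReal.ofReal_le_ofReal (hold p q)
  have h1 := hH.dimH_image_le (Real.toNNReal_pos.mpr hr0)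
  have h2 : dimH (Icc (0 : ℝ) 1) ≤ dimH (φ '' s) := dimH_mono φ_surj
  have h3 : dimH (Icc (0 : ℝ) 1) = 1 := by
    have := Real.dimH_of_nonempty_interior (E := ℝ) (s := Icc (0 : ℝ) 1) (by
      rw [interior_Icc]; exact ⟨1 / 2, by norm_num, by norm_num⟩)
    simpa using this
  rw [h3] at h2
  by_contra hcon
  have h0 : dimH s = 0 := by
    simpa using hcon
  rw [h0, ENNReal.zero_div] at h1
  exact absurd (h2.trans h1) (by norm_num)

end Pool.Agent.Helper68.CT
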