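import Pool.Agent.Helper68.CT.Tree

/-!
# The tree is a proper geodesic hyperbolic space and the action of `H` is geometric
-/

open Filter Topology Set

namespace Pool.Agent.Helper68.CT

namespace X

theorem dist_pt (ξ η : Ray) (s t : ℝ) (hs : 0 ≤ s) (ht : 0 ≤ t) :
    dist (pt ξ s hs) (pt η t ht) = s + t - 2 * Pre.meet ⟨ξ, s, hs⟩ ⟨η, t, ht⟩ := dist_mk _ _

theorem dist_pt_same (ξ : Ray) (s t : ℝ) (hs : 0 ≤ s) (ht : 0 ≤ t) :
    dist (pt ξ s hs) (pt ξ t ht) = |s - t| := by
  rw [dist_pt]
  have : Pre.meet ⟨ξ, s, hs⟩ ⟨ξ, t, ht⟩ = min s t :=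
    Pre.meet_eq_of_ray_eq (p := ⟨ξ, s, hs⟩) (q := ⟨ξ, t, ht⟩) rfl
  rw [this]
  rcases le_total s t with h | h
  · rw [min_eq_left h, abs_of_nonpos (by linarith)]; ring
  · rw [min_eq_right h, abs_of_nonneg (by linarith)]; ring

theorem exists_pt (x : X) : ∃ (ξ : Ray) (t : ℝ) (ht : 0 ≤ t), pt ξ t ht = x := by
  obtain ⟨p, rfl⟩ := SeparationQuotient.surjective_mk x
  exact ⟨p.ray, p.ht, p.nonneg, rfl⟩

/-- A ray. -/
def ray0 : Ray := ⟨fun n => if n % 2 = 0 then 0 else 3, fun n => by
  rcases Nat.mod_two_eq_zero_or_one n with h | h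
  · have : (n + 1) % 2 = 1 := by omega
    simp [h, this]
  · have : (n + 1) % 2 = 0 := by omega
    simp [h, this]⟩

/-- The root. -/
noncomputable def root : X := pt ray0 0 le_rfl

theorem meet_zero (ξ η : Ray) (t : ℝ) (ht : 0 ≤ t) :
    Pre.meet ⟨ξ, 0, le_rfl⟩ ⟨η, t, ht⟩ = 0 :=
  le_antisymm (Pre.meet_le_left _ _) (Pre.meet_nonneg _ _)

theorem pt_zero (ξ : Ray) : pt ξ 0 le_rfl = root := by
  rw [← dist_eq_zero, root, dist_pt, meet_zero]; ring

theorem dist_root (ξ : Ray) (t : ℝ) (ht : 0 ≤ t) : dist root (pt ξ t ht) = t := by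
  rw [root, dist_pt, meet_zero]; ring

theorem geodesic : GeodesicSpace X := by
  intro x y
  obtain ⟨ξ, s, hs, rfl⟩ := exists_pt x
  obtain ⟨η, t, ht, rfl⟩ := exists_pt y
  set m := Pre.meet ⟨ξ, s, hs⟩ ⟨η, t, ht⟩ with hm
  have hm0 : 0 ≤ m := Pre.meet_nonneg _ _
  have hms : m ≤ s := Pre.meet_le_left _ _
  have hmt : m ≤ t := Pre.meet_le_right _ _
  have hd : dist (pt ξ s hs) (pt η t ht) = s + t - 2 * m := dist_pt _ _ _ _ _ _
  rw [hd]
  refine ⟨fun r => if r ≤ s - m then pt ξ (max (s - r) 0) (le_max_right _ _)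
    else pt η (max (2 * m - s + r) 0) (le_max_right _ _), ?_, ?_, ?_⟩
  · simp only []
    rw [if_pos (by linarith)]
    congr 1
    rw [sub_zero, max_eq_left hs]
  · simp only []
    split_ifs with h
    · have h1 : t = m := by linarith
      have h2 : s - (s + t - 2 * m) = m := by linarith
      rw [← dist_eq_zero, dist_pt]
      have h3 : max (s - (s + t - 2 * m)) 0 = m := by rw [h2, max_eq_left hm0]
      have h4 : Pre.meet ⟨ξ, max (s - (s + t - 2 * m)) 0, le_max_right _ _⟩ ⟨η, t, ht⟩ = m := by
        refine Pre.meet_eq ?_ ?_ ?_ ?_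
        · change m ≤ max _ 0; rw [h3]
        · exact hmt
        · exact (Pre.le_meet_iff.mp (le_refl m)).2.2
        · right; left; exact h1.symm
      rw [h4, h3, h1]; ring
    · congr 1
      rw [show 2 * m - s + (s + t - 2 * m) = t by ring, max_eq_left ht]
  · intro a ha b hb
    have key : ∀ a ∈ Icc (0 : ℝ) (s + t - 2 * m), ∀ b ∈ Icc (0 : ℝ) (s + t - 2 * m), a ≤ b →
        dist ((fun r => if r ≤ s - m then pt ξ (max (s - r) 0) (le_max_right _ _)
          else pt η (max (2 * m - s + r) 0) (le_max_right _ _)) a)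
          ((fun r => if r ≤ s - m then pt ξ (max (s - r) 0) (le_max_right _ _)
          else pt η (max (2 * m - s + r) 0) (le_max_right _ _)) b) = b - a := by
      intro a ha b hb hab
      simp only []
      by_cases h1 : a ≤ s - m <;> by_cases h2 : b ≤ s - m
      · rw [if_pos h1, if_pos h2, dist_pt_same, max_eq_left (by linarith),
          max_eq_left (by linarith), abs_of_nonneg (by linarith)]
        ring
      · rw [if_pos h1, if_neg h2, dist_pt]
        push Not at h2
        have e1 : max (s - a) 0 = s - a := max_eq_left (by linarith)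
        have e2 : max (2 * m - s + b) 0 = 2 * m - s + b := max_eq_left (by linarith)
        have h4 : Pre.meet ⟨ξ, max (s - a) 0, le_max_right _ _⟩
            ⟨η, max (2 * m - s + b) 0, le_max_right _ _⟩ = m := by
          refine Pre.meet_eq ?_ ?_ ?_ ?_
          · change m ≤ max _ 0; rw [e1]; linarith
          · change m ≤ max _ 0; rw [e2]; linarith
          · exact (Pre.le_meet_iff.mp (le_refl m)).2.2
          · rcases Pre.meet_spec ⟨ξ, s, hs⟩ ⟨η, t, ht⟩ with h | h | ⟨k, hk, hne⟩
            · left
              change m = max _ 0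
              rw [e1]
              have : m = s := h
              have : a = 0 := by linarith [ha.1]
              rw [this]; linarith
            · exfalso
              have : m = t := h
              have := hb.2
              linarith
            · right; right
              exact ⟨k, hk, hne⟩
        rw [h4, e1, e2]; ring
      · linarith
      · rw [if_neg h1, if_neg h2, dist_pt_same]
        push Not at h1 h2
        rw [max_eq_left (by linarith), max_eq_left (by linarith), abs_sub_comm,
          abs_of_nonneg (by linarith)]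
        ring
    rcases le_total a b with h | h
    · rw [key a ha b hb h, abs_sub_comm, abs_of_nonneg (by linarith)]
    · rw [dist_comm, key b hb a ha h, abs_of_nonneg (by linarith)]

/-- `meet` on the tree, through representatives. -/
noncomputable def meet (x y : X) : ℝ := gromovProduct root x y

theorem meet_pt (ξ η : Ray) (s t : ℝ) (hs : 0 ≤ s) (ht : 0 ≤ t) :
    meet (pt ξ s hs) (pt η t ht) = Pre.meet ⟨ξ, s, hs⟩ ⟨η, t, ht⟩ := by
  unfold meet gromovProduct
  rw [dist_root, dist_root, dist_pt]; ring

theorem meet_ultra (x y z : X) : min (meet x y) (meet y z) ≤ meet x z := by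
  obtain ⟨ξ, s, hs, rfl⟩ := exists_pt x
  obtain ⟨η, t, ht, rfl⟩ := exists_pt y
  obtain ⟨ζ, u, hu, rfl⟩ := exists_pt z
  rw [meet_pt, meet_pt, meet_pt]
  exact Pre.meet_ultra _ _ _

theorem meet_comm (x y : X) : meet x y = meet y x := by
  unfold meet gromovProduct
  rw [dist_comm x y]; ring

theorem dist_eq_meet (x y : X) : dist x y = dist root x + dist root y - 2 * meet x y := by
  unfold meet gromovProduct; ring

theorem hyperbolic : GromovHyperbolic X := by
  refine ⟨0, fun o x y z => ?_⟩
  unfold gromovProduct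
  rw [dist_eq_meet o x, dist_eq_meet o y, dist_eq_meet o z, dist_eq_meet x y, dist_eq_meet x z,
    dist_eq_meet y z, sub_zero]
  have h1 := min_le_iff.mp (meet_ultra x y z)
  have h6 := min_le_iff.mp (meet_ultra o z y)
  have h10 := min_le_iff.mp (meet_ultra x o z)
  have h7 := min_le_iff.mp (meet_ultra o x y)
  rw [meet_comm z y] at h6
  rw [meet_comm x o] at h10
  have goal : min (meet x y + meet o z) (meet o x + meet y z) ≤ meet o y + meet x z := by
    rw [min_le_iff]
    by_contra hcon
    push Not at hcon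
    obtain ⟨c1, c2⟩ := hcon
    rcases h1 with h1 | h1 <;> rcases h6 with h6 | h6 <;> rcases h10 with h10 | h10 <;>
      rcases h7 with h7 | h7 <;> linarith
  rcases min_le_iff.mp goal with h | h
  · refine (min_le_left _ _).trans ?_
    linarith
  · refine (min_le_right _ _).trans ?_
    linarith

end X

end Pool.Agent.Helper68.CT
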