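import Mathlib

/-!
# The free product of four groups of order two acting on infinite reduced words
-/

open Filter Topology Set

namespace Pool.Agent.Helper68.CT

/-- Infinite reduced words in four letters. -/
def Ray : Type := {ξ : ℕ → Fin 4 // ∀ n, ξ (n + 1) ≠ ξ n}

instance : TopologicalSpace Ray :=
  inferInstanceAs (TopologicalSpace {ξ : ℕ → Fin 4 // ∀ n, ξ (n + 1) ≠ ξ n})

namespace Ray

instance : CoeFun Ray (fun _ => ℕ → Fin 4) := ⟨fun ξ => ξ.1⟩

theorem ne (ξ : Ray) (n : ℕ) : ξ (n + 1) ≠ ξ n := ξ.2 n

@[ext] theorem ext {ξ η : Ray} (h : ∀ n, ξ n = η n) : ξ = η := Subtype.ext (funext h)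

instance : CompactSpace Ray := by
  have : IsClosed {ξ : ℕ → Fin 4 | ∀ n, ξ (n + 1) ≠ ξ n} := by
    have : {ξ : ℕ → Fin 4 | ∀ n, ξ (n + 1) ≠ ξ n}
        = ⋂ n, (fun ξ : ℕ → Fin 4 => (ξ (n + 1), ξ n)) ⁻¹' {p | p.1 ≠ p.2} := by
      ext ξ; simp
    rw [this]
    refine isClosed_iInter fun n => IsClosed.preimage ?_ ?_
    · exact (continuous_apply _).prodMk (continuous_apply _)
    · exact isClosed_discrete _
  exact isCompact_iff_compactSpace.mp this.isCompact

/-- The set of rays that agree with `ξ` in the first `n` letters is a neighbourhood. -/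
theorem agree_mem_nhds (ξ : Ray) (n : ℕ) : {η : Ray | ∀ k < n, η k = ξ k} ∈ 𝓝 ξ := by
  have h : ∀ k, {η : Ray | η k = ξ k} ∈ 𝓝 ξ := by
    intro k
    have hc : Continuous (fun η : Ray => η k) :=
      (continuous_apply k).comp continuous_subtype_val
    have : IsOpen ((fun η : Ray => η k) ⁻¹' {ξ k}) := (isOpen_discrete _).preimage hc
    exact this.mem_nhds rfl
  have : {η : Ray | ∀ k < n, η k = ξ k} = ⋂ k ∈ Finset.range n, {η : Ray | η k = ξ k} := by
    ext η; simp
  rw [this]
  exact (Filter.biInter_finset_mem _).mpr fun k _ => h k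

/-- Neighbourhoods of a ray contain all rays that agree with it long enough. -/
theorem exists_agree {ξ : Ray} {U : Set Ray} (hU : U ∈ 𝓝 ξ) :
    ∃ n, ∀ η : Ray, (∀ k < n, η k = ξ k) → η ∈ U := by
  obtain ⟨V, hV, hVU⟩ := mem_nhds_induced (Subtype.val : Ray → (ℕ → Fin 4)) ξ U |>.mp hU
  rw [nhds_pi] at hV
  obtain ⟨I, hI, t, ht, hsub⟩ := Filter.mem_pi.mp hV
  obtain ⟨n, hn⟩ := hI.bddAbove
  refine ⟨n + 1, fun η hη => hVU (hsub ?_)⟩
  intro k hk
  have : η.1 k = ξ.1 k := hη k (Nat.lt_succ_of_le (hn hk))
  rw [this]
  exact mem_of_mem_nhds (ht k)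

/-- Put a letter in front. -/
def cons (i : Fin 4) (ξ : Ray) (h : ξ 0 ≠ i) : Ray :=
  ⟨fun n => Nat.casesOn n i ξ.1, fun n => by cases n <;> [exact h; exact ξ.2 _]⟩

/-- Remove the first letter. -/
def tail (ξ : Ray) : Ray := ⟨fun n => ξ.1 (n + 1), fun n => ξ.2 (n + 1)⟩

@[simp] theorem cons_zero (i : Fin 4) (ξ : Ray) (h : ξ 0 ≠ i) : cons i ξ h 0 = i := rfl
@[simp] theorem cons_succ (i : Fin 4) (ξ : Ray) (h : ξ 0 ≠ i) (n : ℕ) :
    cons i ξ h (n + 1) = ξ n := rfl
@[simp] theorem tail_apply (ξ : Ray) (n : ℕ) : tail ξ n = ξ (n + 1) := rfl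

/-- The involution of rays given by the generator `i`. -/
def σ (i : Fin 4) (ξ : Ray) : Ray := if h : ξ 0 = i then tail ξ else cons i ξ h

theorem σ_of_eq {i : Fin 4} {ξ : Ray} (h : ξ 0 = i) : σ i ξ = tail ξ := dif_pos h
theorem σ_of_ne {i : Fin 4} {ξ : Ray} (h : ξ 0 ≠ i) : σ i ξ = cons i ξ h := dif_neg h

theorem σ_σ (i : Fin 4) (ξ : Ray) : σ i (σ i ξ) = ξ := by
  by_cases h : ξ 0 = i
  · have h2 : (tail ξ) 0 ≠ i := by
      rw [← h]; exact ξ.ne 0
    rw [σ_of_eq h, σ_of_ne h2]
    ext n
    cases n with
    | zero => simp [h]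
    | succ n => simp
  · rw [σ_of_ne h, σ_of_eq (cons_zero i ξ h)]
    ext n
    simp

theorem σ_apply_zero_of_ne {i : Fin 4} {ξ : Ray} (h : ξ 0 ≠ i) : σ i ξ 0 = i := by
  rw [σ_of_ne h]; rfl

end Ray

/-- The group `H = Z/2 * Z/2 * Z/2 * Z/2`. -/
abbrev H : Type := PresentedGroup (Set.range fun i : Fin 4 => FreeGroup.of i ^ 2)

namespace H

/-- The generators. -/
def s (i : Fin 4) : H := PresentedGroup.of i

/-- A homomorphism out of `H` is given by involutions. -/
def lift {G : Type} [Group G] (f : Fin 4 → G) (hf : ∀ i, f i * f i = 1) : H →* G :=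
  PresentedGroup.toGroup (f := f) (by
    rintro r ⟨i, rfl⟩
    simp [pow_two, hf i])

@[simp] theorem lift_s {G : Type} [Group G] (f : Fin 4 → G) (hf : ∀ i, f i * f i = 1)
    (i : Fin 4) : lift f hf (s i) = f i := by
  simp [lift, s]

theorem s_mul_s (i : Fin 4) : s i * s i = 1 := by
  have : (PresentedGroup.mk (Set.range fun i : Fin 4 => FreeGroup.of i ^ 2))
      (FreeGroup.of i ^ 2) = 1 := by
    apply PresentedGroup.one_of_mem
    exact ⟨i, rfl⟩
  rw [map_pow, pow_two] at this
  exact this

instance : Countable (FreeGroup (Fin 4)) := by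
  have : Function.Surjective (FreeGroup.mk : List (Fin 4 × Bool) → FreeGroup (Fin 4)) := by
    intro x
    exact ⟨x.toWord, FreeGroup.mk_toWord⟩
  exact this.countable

instance : Countable H := (PresentedGroup.mk_surjective
  (Set.range fun i : Fin 4 => FreeGroup.of i ^ 2)).countable

/-- The product of the generators in a list. -/
def prod (l : List (Fin 4)) : H := (l.map s).prod

@[simp] theorem prod_nil : prod [] = 1 := rfl
@[simp] theorem prod_cons (i : Fin 4) (l : List (Fin 4)) : prod (i :: l) = s i * prod l := by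
  simp [prod]

/-- Reduced words. -/
def Red (l : List (Fin 4)) : Prop := List.IsChain (· ≠ ·) l

/-- Every element is the product of a reduced word. -/
theorem exists_red (h : H) : ∃ l, Red l ∧ prod l = h := by
  have key : ∀ i (l : List (Fin 4)), Red l → ∃ l', Red l' ∧ prod l' = s i * prod l := by
    intro i l hl
    cases l with
    | nil => exact ⟨[i], by simp [Red], by simp⟩
    | cons j l =>
      by_cases hij : i = j
      · subst hij
        refine ⟨l, ?_, ?_⟩
        · unfold Red at *
          exact hl.tail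
        · rw [prod_cons, ← mul_assoc, s_mul_s, one_mul]
      · refine ⟨i :: j :: l, ?_, by simp⟩
        unfold Red at *
        exact List.isChain_cons_cons.mpr ⟨hij, hl⟩
  obtain ⟨w, rfl⟩ := PresentedGroup.mk_surjective _ h
  induction w using FreeGroup.induction_on with
  | C1 => exact ⟨[], by simp [Red], by simp⟩
  | of i =>
    exact ⟨[i], by simp [Red], by simp [prod, s]; rfl⟩
  | inv_of i _ =>
    refine ⟨[i], by simp [Red], ?_⟩
    rw [map_inv]
    have := s_mul_s i
    rw [mul_eq_one_iff_eq_inv] at this
    change prod [i] = (s i)⁻¹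
    simpa [prod] using this
  | mul x y hx hy =>
    obtain ⟨l1, h1, e1⟩ := hx
    obtain ⟨l2, h2, e2⟩ := hy
    rw [map_mul, ← e1, ← e2]
    clear e1 e2 h1
    induction l1 with
    | nil => exact ⟨l2, h2, by simp⟩
    | cons i l1 ih =>
      obtain ⟨l3, h3, e3⟩ := ih
      obtain ⟨l4, h4, e4⟩ := key i l3 h3
      exact ⟨l4, h4, by rw [e4, e3, prod_cons, mul_assoc]⟩

/-- The action on rays as a homomorphism. -/
def rayHom : H →* Equiv.Perm Ray :=
  lift (fun i => ⟨Ray.σ i, Ray.σ i, Ray.σ_σ i, Ray.σ_σ i⟩) (by
    intro i; ext1 ξ; exact Ray.σ_σ i ξ)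

instance : MulAction H Ray where
  smul h ξ := rayHom h ξ
  one_smul ξ := by
    change rayHom 1 ξ = ξ
    simp
  mul_smul g h ξ := by
    change rayHom (g * h) ξ = rayHom g (rayHom h ξ)
    simp

theorem s_smul (i : Fin 4) (ξ : Ray) : s i • ξ = Ray.σ i ξ := by
  change rayHom (s i) ξ = _
  simp [rayHom]

/-- Cancellation: a reduced word of length `m` applied to a ray. -/
theorem cancel (l : List (Fin 4)) (hl : Red l) (ξ : Ray) :
    ∃ k ≤ l.length, (∀ t < k, ∀ d, l.getD (l.length - 1 - t) d = ξ t) ∧
      (∀ r < l.length - k, ∀ d, (prod l • ξ : Ray) r = l.getD r d) ∧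
      (∀ r, (prod l • ξ : Ray) (l.length - k + r) = ξ (k + r)) := by
  induction l with
  | nil => exact ⟨0, le_rfl, by simp, by simp, by simp⟩
  | cons a l ih =>
    have hl' : Red l := by
      unfold Red at *
      exact hl.tail
    obtain ⟨k, hk, h1, h2, h3⟩ := ih hl'
    have e : (prod (a :: l) • ξ : Ray) = Ray.σ a (prod l • ξ) := by
      rw [prod_cons, mul_smul, s_smul]
    rw [e]
    by_cases hlt : k < l.length
    · -- nothing more is cancelled
      have hne : (prod l • ξ : Ray) 0 ≠ a := by
        rw [h2 0 (by omega) 0]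
        cases l with
        | nil => simp at hlt
        | cons b l =>
          unfold Red at hl
          have := (List.isChain_cons_cons.mp hl).1
          simpa using this.symm
      rw [Ray.σ_of_ne hne]
      refine ⟨k, by simp; omega, ?_, ?_, ?_⟩
      · intro t ht d
        rw [← h1 t ht d]
        have : (a :: l).length - 1 - t = (l.length - 1 - t) + 1 := by simp; omega
        rw [this]; simp
      · intro r hr d
        cases r with
        | zero => simp
        | succ r =>
          simp only [List.length_cons] at hr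
          simp only [Ray.cons_succ, List.getD_cons_succ]
          exact h2 r (by omega) d
      · intro r
        have : (a :: l).length - k + r = (l.length - k + r) + 1 := by simp; omega
        rw [this, Ray.cons_succ]
        exact h3 r
    · have hk' : k = l.length := by omega
      subst hk'
      have h3' : ∀ r, (prod l • ξ : Ray) r = ξ (l.length + r) := by
        intro r; have := h3 r; simpa using this
      by_cases ha : ξ l.length = a
      · have h0 : (prod l • ξ : Ray) 0 = a := by rw [h3' 0]; simpa using ha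
        rw [Ray.σ_of_eq h0]
        refine ⟨l.length + 1, by simp, ?_, ?_, ?_⟩
        · intro t ht d
          by_cases htl : t < l.length
          · rw [← h1 t htl d]
            have : (a :: l).length - 1 - t = (l.length - 1 - t) + 1 := by simp; omega
            rw [this]; simp
          · have : t = l.length := by omega
            subst this
            simp [ha]
        · intro r hr; simp at hr
        · intro r
          simp only [List.length_cons, Nat.sub_self, zero_add, Ray.tail_apply]
          rw [h3' (r + 1)]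
          have : l.length + (r + 1) = l.length + 1 + r := by omega
          rw [this]
      · have h0 : (prod l • ξ : Ray) 0 ≠ a := by rw [h3' 0]; simpa using ha
        rw [Ray.σ_of_ne h0]
        refine ⟨l.length, by simp, ?_, ?_, ?_⟩
        · intro t ht d
          rw [← h1 t ht d]
          have : (a :: l).length - 1 - t = (l.length - 1 - t) + 1 := by simp; omega
          rw [this]; simp
        · intro r hr d
          simp only [List.length_cons] at hr
          have : r = 0 := by omega
          subst this; simp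
        · intro r
          have : (a :: l).length - l.length + r = r + 1 := by simp; omega
          rw [this, Ray.cons_succ, h3' r]

/-- If not everything is cancelled, the first letter of the word survives. -/
theorem first_letter {a : Fin 4} {l : List (Fin 4)} (hl : Red (a :: l)) (ξ : Ray)
    (h : ¬ ∀ t < l.length + 1, (a :: l).getD (l.length - t) 0 = ξ t) :
    (prod (a :: l) • ξ : Ray) 0 = a := by
  obtain ⟨k, hk, h1, h2, h3⟩ := cancel (a :: l) hl ξ
  have hk' : k < (a :: l).length := by
    by_contra hcon
    apply h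
    intro t ht
    have := h1 t (by simp at hcon ⊢; omega) 0
    simpa using this
  have := h2 0 (by omega) 0
  simpa using this

end H

end Pool.Agent.Helper68.CT
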