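import Pool.Agent.Helper68.CT.Ray
import Pool.Agent.Helper68.CT.Defs

/-!
# The four-valent tree as a metric space, and the action of `H` on it
-/

open Filter Topology Set

namespace Pool.Agent.Helper68.CT

/-- A point of the tree is given by a ray and a height. -/
structure Pre : Type where
  ray : Ray
  ht : ℝ
  nonneg : 0 ≤ ht

namespace Pre

/-- The first index at which two rays differ. -/
noncomputable def fd (ξ η : Ray) : ℕ := PiNat.firstDiff (E := fun _ => Fin 4) ξ.1 η.1

theorem fd_comm (ξ η : Ray) : fd ξ η = fd η ξ := PiNat.firstDiff_comm _ _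

theorem apply_fd_ne {ξ η : Ray} (h : ξ ≠ η) : ξ (fd ξ η) ≠ η (fd ξ η) :=
  PiNat.apply_firstDiff_ne (fun e => h (Subtype.ext e))

theorem apply_eq_of_lt_fd {ξ η : Ray} {n : ℕ} (h : n < fd ξ η) : ξ n = η n :=
  PiNat.apply_eq_of_lt_firstDiff h

theorem le_fd_iff {ξ η : Ray} (h : ξ ≠ η) (n : ℕ) : n ≤ fd ξ η ↔ ∀ k < n, ξ k = η k := by
  constructor
  · intro hn k hk; exact apply_eq_of_lt_fd (by omega)
  · intro hn
    by_contra hcon
    exact apply_fd_ne h (hn _ (by omega))

theorem fd_eq {ξ η : Ray} {n : ℕ} (h : ∀ k < n, ξ k = η k) (hn : ξ n ≠ η n) : fd ξ η = n := by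
  have hne : ξ ≠ η := by rintro rfl; exact hn rfl
  refine le_antisymm ?_ ((le_fd_iff hne n).mpr h)
  by_contra hcon
  exact hn (apply_eq_of_lt_fd (by omega))

open Classical in
/-- The height up to which the two paths from the root coincide. -/
noncomputable def meet (p q : Pre) : ℝ :=
  if p.ray = q.ray then min p.ht q.ht else min (min p.ht q.ht) (fd p.ray q.ray)

theorem meet_eq_of_ray_eq {p q : Pre} (h : p.ray = q.ray) : meet p q = min p.ht q.ht :=
  if_pos h

theorem meet_eq_of_ray_ne {p q : Pre} (h : p.ray ≠ q.ray) :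
    meet p q = min (min p.ht q.ht) (fd p.ray q.ray) := if_neg h

theorem meet_le_left (p q : Pre) : meet p q ≤ p.ht := by
  unfold meet; split_ifs
  · exact min_le_left _ _
  · exact (min_le_left _ _).trans (min_le_left _ _)

theorem meet_comm (p q : Pre) : meet p q = meet q p := by
  unfold meet
  by_cases h : p.ray = q.ray
  · rw [if_pos h, if_pos h.symm, min_comm]
  · rw [if_neg h, if_neg (fun e => h e.symm), min_comm p.ht, fd_comm]

theorem meet_le_right (p q : Pre) : meet p q ≤ q.ht := by
  rw [meet_comm]; exact meet_le_left _ _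

theorem meet_nonneg (p q : Pre) : 0 ≤ meet p q := by
  unfold meet; split_ifs
  · exact le_min p.nonneg q.nonneg
  · exact le_min (le_min p.nonneg q.nonneg) (Nat.cast_nonneg _)

theorem meet_self (p : Pre) : meet p p = p.ht := by
  rw [meet_eq_of_ray_eq rfl, min_self]

/-- Characterization: `r ≤ meet p q` iff `r` is below both heights and the rays agree long
enough. -/
theorem le_meet_iff {p q : Pre} {r : ℝ} : r ≤ meet p q ↔
    r ≤ p.ht ∧ r ≤ q.ht ∧ ∀ k : ℕ, (k : ℝ) < r → p.ray k = q.ray k := by
  constructor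
  · intro h
    refine ⟨h.trans (meet_le_left _ _), h.trans (meet_le_right _ _), ?_⟩
    intro k hk
    by_cases e : p.ray = q.ray
    · rw [e]
    · rw [meet_eq_of_ray_ne e] at h
      apply apply_eq_of_lt_fd
      have : (k : ℝ) < fd p.ray q.ray := lt_of_lt_of_le hk (h.trans (min_le_right _ _))
      exact_mod_cast this
  · rintro ⟨h1, h2, h3⟩
    by_cases e : p.ray = q.ray
    · rw [meet_eq_of_ray_eq e]; exact le_min h1 h2
    · rw [meet_eq_of_ray_ne e]
      refine le_min (le_min h1 h2) ?_
      by_contra hcon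
      push Not at hcon
      exact apply_fd_ne e (h3 _ hcon)

theorem meet_ultra (p q r : Pre) : min (meet p q) (meet q r) ≤ meet p r := by
  rw [le_meet_iff]
  have h1 : min (meet p q) (meet q r) ≤ meet p q := min_le_left _ _
  have h2 : min (meet p q) (meet q r) ≤ meet q r := min_le_right _ _
  rw [le_meet_iff] at h1 h2
  exact ⟨h1.1, h2.2.1, fun k hk => (h1.2.2 k hk).trans (h2.2.2 k hk)⟩

noncomputable instance : PseudoMetricSpace Pre where
  dist p q := p.ht + q.ht - 2 * meet p q
  dist_self p := by rw [meet_self]; ring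
  dist_comm p q := by rw [meet_comm]; ring
  dist_triangle p q r := by
    have h1 := meet_ultra p q r
    have h2 := meet_le_right p q
    have h3 := meet_le_left q r
    rcases le_total (meet p q) (meet q r) with h | h
    · rw [min_eq_left h] at h1; linarith
    · rw [min_eq_right h] at h1; linarith

theorem dist_def (p q : Pre) : dist p q = p.ht + q.ht - 2 * meet p q := rfl

/-- The generator `i` on the tree. -/
noncomputable def σ (i : Fin 4) (p : Pre) : Pre :=
  if p.ray 0 = i then
    (if h : 1 ≤ p.ht then ⟨Ray.tail p.ray, p.ht - 1, by linarith⟩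
      else ⟨p.ray, 1 - p.ht, by push Not at h; linarith⟩)
  else ⟨Ray.σ i p.ray, p.ht + 1, by linarith [p.nonneg]⟩

theorem σ_up {i : Fin 4} {p : Pre} (h : p.ray 0 ≠ i) :
    (σ i p).ray = Ray.σ i p.ray ∧ (σ i p).ht = p.ht + 1 := by
  unfold σ; rw [if_neg h]; exact ⟨rfl, rfl⟩

theorem σ_down {i : Fin 4} {p : Pre} (h : p.ray 0 = i) (h1 : 1 ≤ p.ht) :
    (σ i p).ray = Ray.σ i p.ray ∧ (σ i p).ht = p.ht - 1 := by
  unfold σ; rw [if_pos h, dif_pos h1]; exact ⟨(Ray.σ_of_eq h).symm, rfl⟩

theorem σ_flip {i : Fin 4} {p : Pre} (h : p.ray 0 = i) (h1 : ¬ 1 ≤ p.ht) :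
    (σ i p).ray = p.ray ∧ (σ i p).ht = 1 - p.ht := by
  unfold σ; rw [if_pos h, dif_neg h1]; exact ⟨rfl, rfl⟩

/-- Computing `meet` from below and above. -/
theorem meet_eq {p q : Pre} {r : ℝ} (h1 : r ≤ p.ht) (h2 : r ≤ q.ht)
    (h3 : ∀ k : ℕ, (k : ℝ) < r → p.ray k = q.ray k)
    (h4 : r = p.ht ∨ r = q.ht ∨ ∃ k : ℕ, r = k ∧ p.ray k ≠ q.ray k) : meet p q = r := by
  refine le_antisymm ?_ (le_meet_iff.mpr ⟨h1, h2, h3⟩)
  rcases h4 with h | h | ⟨k, hk, hne⟩
  · rw [h]; exact meet_le_left _ _
  · rw [h]; exact meet_le_right _ _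
  · by_contra hcon
    push Not at hcon
    have := (le_meet_iff.mp (le_refl (meet p q))).2.2 k (by rw [← hk]; exact hcon)
    exact hne this

theorem meet_spec (p q : Pre) : meet p q = p.ht ∨ meet p q = q.ht ∨
    ∃ k : ℕ, meet p q = k ∧ p.ray k ≠ q.ray k := by
  by_cases e : p.ray = q.ray
  · rw [meet_eq_of_ray_eq e]
    rcases min_choice p.ht q.ht with h | h <;> simp [h]
  · rw [meet_eq_of_ray_ne e]
    rcases min_choice (min p.ht q.ht) (fd p.ray q.ray : ℝ) with h | h
    · rw [h]; rcases min_choice p.ht q.ht with h | h <;> simp [h]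
    · rw [h]; exact Or.inr (Or.inr ⟨_, rfl, apply_fd_ne e⟩)

/-- The generators act isometrically. -/
theorem dist_σ (i : Fin 4) (p q : Pre) : dist (σ i p) (σ i q) = dist p q := by
  have hA : ∀ p q : Pre, p.ray 0 = i → q.ray 0 = i → 1 ≤ p.ht → 1 ≤ q.ht →
      dist (σ i p) (σ i q) = dist p q := by
    intro p q hp hq h1 h2
    obtain ⟨a1, a2⟩ := σ_down hp h1
    obtain ⟨b1, b2⟩ := σ_down hq h2
    rw [Ray.σ_of_eq hp] at a1
    rw [Ray.σ_of_eq hq] at b1
    have hone : 1 ≤ meet p q := by
      rw [le_meet_iff]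
      refine ⟨h1, h2, ?_⟩
      intro k hk
      have : k = 0 := by
        have : k < 1 := by exact_mod_cast hk
        omega
      subst this; rw [hp, hq]
    have : meet (σ i p) (σ i q) = meet p q - 1 := by
      refine meet_eq ?_ ?_ ?_ ?_
      · rw [a2]; linarith [meet_le_left p q]
      · rw [b2]; linarith [meet_le_right p q]
      · intro k hk
        rw [a1, b1]
        exact (le_meet_iff.mp (le_refl (meet p q))).2.2 (k + 1) (by push_cast; linarith)
      · rcases meet_spec p q with h | h | ⟨k, hk, hne⟩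
        · left; rw [a2, h]
        · right; left; rw [b2, h]
        · right; right
          have hk1 : 1 ≤ k := by
            have : (1 : ℝ) ≤ k := by rw [← hk]; exact hone
            exact_mod_cast this
          refine ⟨k - 1, ?_, ?_⟩
          · rw [hk]; push_cast [Nat.cast_sub hk1]; ring
          · rw [a1, b1]; simpa [Nat.sub_add_cancel hk1] using hne
    rw [dist_def, dist_def, this, a2, b2]; ring
  have hB : ∀ p q : Pre, p.ray 0 = i → q.ray 0 = i → 1 ≤ p.ht → ¬ 1 ≤ q.ht →
      dist (σ i p) (σ i q) = dist p q := by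
    intro p q hp hq h1 h2
    obtain ⟨a1, a2⟩ := σ_down hp h1
    obtain ⟨b1, b2⟩ := σ_flip hq h2
    rw [Ray.σ_of_eq hp] at a1
    push Not at h2
    have e1 : meet p q = q.ht := by
      refine meet_eq (by linarith) le_rfl ?_ (Or.inr (Or.inl rfl))
      intro k hk
      have : k = 0 := by
        have : (k : ℝ) < 1 := by linarith
        have : k < 1 := by exact_mod_cast this
        omega
      subst this; rw [hp, hq]
    have e2 : meet (σ i p) (σ i q) = 0 := by
      refine meet_eq (by rw [a2]; linarith) (by rw [b2]; linarith) ?_ ?_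
      · intro k hk
        exact absurd hk (not_lt.mpr (Nat.cast_nonneg _))
      · right; right
        refine ⟨0, by simp, ?_⟩
        rw [a1, b1, hq, ← hp]
        exact p.ray.ne 0
    rw [dist_def, dist_def, e1, e2, a2, b2]; ring
  have hC : ∀ p q : Pre, p.ray 0 = i → q.ray 0 = i → ¬ 1 ≤ p.ht → ¬ 1 ≤ q.ht →
      dist (σ i p) (σ i q) = dist p q := by
    intro p q hp hq h1 h2
    obtain ⟨a1, a2⟩ := σ_flip hp h1
    obtain ⟨b1, b2⟩ := σ_flip hq h2
    push Not at h1 h2
    have e1 : meet p q = min p.ht q.ht := by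
      refine meet_eq (min_le_left _ _) (min_le_right _ _) ?_ ?_
      · intro k hk
        have : k = 0 := by
          have : (k : ℝ) < 1 := by linarith [min_le_left p.ht q.ht]
          have : k < 1 := by exact_mod_cast this
          omega
        subst this; rw [hp, hq]
      · rcases min_choice p.ht q.ht with h | h <;> simp [h]
    have e2 : meet (σ i p) (σ i q) = min (1 - p.ht) (1 - q.ht) := by
      refine meet_eq (by rw [a2]; exact min_le_left _ _) (by rw [b2]; exact min_le_right _ _) ?_ ?_
      · intro k hk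
        have : k = 0 := by
          have : (k : ℝ) < 1 := by
            have := min_le_left (1 - p.ht) (1 - q.ht)
            linarith [p.nonneg]
          have : k < 1 := by exact_mod_cast this
          omega
        subst this; rw [a1, b1, hp, hq]
      · rw [a2, b2]
        rcases min_choice (1 - p.ht) (1 - q.ht) with h | h <;> simp [h]
    rw [dist_def, dist_def, e1, e2, a2, b2]
    rcases le_total p.ht q.ht with h | h
    · rw [min_eq_left h, min_eq_right (by linarith)]; ring
    · rw [min_eq_right h, min_eq_left (by linarith)]; ring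
  have hD : ∀ p q : Pre, p.ray 0 = i → q.ray 0 ≠ i → dist (σ i p) (σ i q) = dist p q := by
    intro p q hp hq
    obtain ⟨b1, b2⟩ := σ_up hq
    rw [Ray.σ_of_ne hq] at b1
    have e1 : meet p q = 0 := by
      refine meet_eq p.nonneg q.nonneg ?_ ?_
      · intro k hk
        exact absurd hk (not_lt.mpr (Nat.cast_nonneg _))
      · right; right
        exact ⟨0, by simp, by rw [hp]; exact fun e => hq e.symm⟩
    by_cases h1 : 1 ≤ p.ht
    · obtain ⟨a1, a2⟩ := σ_down hp h1
      rw [Ray.σ_of_eq hp] at a1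
      have e2 : meet (σ i p) (σ i q) = 0 := by
        refine meet_eq (by rw [a2]; linarith) (by rw [b2]; linarith [q.nonneg]) ?_ ?_
        · intro k hk
          exact absurd hk (not_lt.mpr (Nat.cast_nonneg _))
        · right; right
          refine ⟨0, by simp, ?_⟩
          rw [a1, b1]
          change p.ray 1 ≠ i
          rw [← hp]; exact p.ray.ne 0
      rw [dist_def, dist_def, e1, e2, a2, b2]; ring
    · obtain ⟨a1, a2⟩ := σ_flip hp h1
      push Not at h1
      have e2 : meet (σ i p) (σ i q) = 1 - p.ht := by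
        refine meet_eq (by rw [a2]) (by rw [b2]; linarith [q.nonneg, p.nonneg]) ?_ ?_
        · intro k hk
          have : k = 0 := by
            have : (k : ℝ) < 1 := by linarith [p.nonneg]
            have : k < 1 := by exact_mod_cast this
            omega
          subst this
          rw [a1, b1, hp]; rfl
        · left; rw [a2]
      rw [dist_def, dist_def, e1, e2, a2, b2]; ring
  have hE : ∀ p q : Pre, p.ray 0 ≠ i → q.ray 0 ≠ i → dist (σ i p) (σ i q) = dist p q := by
    intro p q hp hq
    obtain ⟨a1, a2⟩ := σ_up hp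
    obtain ⟨b1, b2⟩ := σ_up hq
    rw [Ray.σ_of_ne hp] at a1
    rw [Ray.σ_of_ne hq] at b1
    have : meet (σ i p) (σ i q) = meet p q + 1 := by
      refine meet_eq ?_ ?_ ?_ ?_
      · rw [a2]; linarith [meet_le_left p q]
      · rw [b2]; linarith [meet_le_right p q]
      · intro k hk
        rw [a1, b1]
        cases k with
        | zero => rfl
        | succ k =>
          exact (le_meet_iff.mp (le_refl (meet p q))).2.2 k (by push_cast at hk; linarith)
      · rcases meet_spec p q with h | h | ⟨k, hk, hne⟩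
        · left; rw [a2, h]
        · right; left; rw [b2, h]
        · right; right
          refine ⟨k + 1, by rw [hk]; push_cast; ring, ?_⟩
          rw [a1, b1]; exact hne
    rw [dist_def, dist_def, this, a2, b2]; ring
  by_cases hp : p.ray 0 = i <;> by_cases hq : q.ray 0 = i
  · by_cases h1 : 1 ≤ p.ht <;> by_cases h2 : 1 ≤ q.ht
    · exact hA p q hp hq h1 h2
    · exact hB p q hp hq h1 h2
    · rw [dist_comm, hB q p hq hp h2 h1, dist_comm]
    · exact hC p q hp hq h1 h2
  · exact hD p q hp hq
  · rw [dist_comm, hD q p hq hp, dist_comm]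
  · exact hE p q hp hq

theorem dist_eq_zero_of {p q : Pre} (h : p.ray = q.ray) (h2 : p.ht = q.ht) : dist p q = 0 := by
  rw [dist_def, meet_eq_of_ray_eq h, h2, min_self]; ring

theorem dist_σ_σ (i : Fin 4) (p : Pre) : dist (σ i (σ i p)) p = 0 := by
  by_cases hp : p.ray 0 = i
  · by_cases h1 : 1 ≤ p.ht
    · obtain ⟨a1, a2⟩ := σ_down hp h1
      have h0 : (σ i p).ray 0 ≠ i := by
        rw [a1, Ray.σ_of_eq hp]
        change p.ray 1 ≠ i
        rw [← hp]; exact p.ray.ne 0
      obtain ⟨b1, b2⟩ := σ_up h0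
      apply dist_eq_zero_of
      · rw [b1, a1, Ray.σ_σ]
      · rw [b2, a2]; ring
    · obtain ⟨a1, a2⟩ := σ_flip hp h1
      have h0 : (σ i p).ray 0 = i := by rw [a1, hp]
      by_cases h2 : 1 ≤ (σ i p).ht
      · obtain ⟨b1, b2⟩ := σ_down h0 h2
        have hz : p.ht = 0 := by rw [a2] at h2; linarith [p.nonneg]
        have hz2 : (σ i (σ i p)).ht = 0 := by rw [b2, a2, hz]; ring
        have : meet (σ i (σ i p)) p = 0 := by
          refine le_antisymm ?_ (meet_nonneg _ _)
          rw [← hz]; exact meet_le_right _ _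
        rw [dist_def, this, hz, hz2]; ring
      · obtain ⟨b1, b2⟩ := σ_flip h0 h2
        apply dist_eq_zero_of
        · rw [b1, a1]
        · rw [b2, a2]; ring
  · obtain ⟨a1, a2⟩ := σ_up hp
    have h0 : (σ i p).ray 0 = i := by rw [a1]; exact Ray.σ_apply_zero_of_ne hp
    obtain ⟨b1, b2⟩ := σ_down h0 (by rw [a2]; linarith [p.nonneg])
    apply dist_eq_zero_of
    · rw [b1, a1, Ray.σ_σ]
    · rw [b2, a2]; ring

end Pre

/-- The tree. -/
abbrev X : Type := SeparationQuotient Pre

namespace X

/-- The point of height `t` on the ray `ξ`. -/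
noncomputable def pt (ξ : Ray) (t : ℝ) (ht : 0 ≤ t) : X := SeparationQuotient.mk ⟨ξ, t, ht⟩

/-- The generator on the tree. -/
noncomputable def σ (i : Fin 4) : X → X :=
  SeparationQuotient.lift (fun p => SeparationQuotient.mk (Pre.σ i p)) (by
    intro p q h
    rw [SeparationQuotient.mk_eq_mk]
    rw [Metric.inseparable_iff] at h ⊢
    rw [Pre.dist_σ, h])

@[simp] theorem σ_mk (i : Fin 4) (p : Pre) :
    σ i (SeparationQuotient.mk p) = SeparationQuotient.mk (Pre.σ i p) := rfl

theorem dist_mk (p q : Pre) :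
    dist (SeparationQuotient.mk p : X) (SeparationQuotient.mk q) = dist p q :=
  SeparationQuotient.dist_mk p q

theorem σ_σ (i : Fin 4) (x : X) : σ i (σ i x) = x := by
  obtain ⟨p, rfl⟩ := SeparationQuotient.surjective_mk x
  rw [σ_mk, σ_mk, SeparationQuotient.mk_eq_mk, Metric.inseparable_iff, Pre.dist_σ_σ]

theorem dist_σ (i : Fin 4) (x y : X) : dist (σ i x) (σ i y) = dist x y := by
  obtain ⟨p, rfl⟩ := SeparationQuotient.surjective_mk x
  obtain ⟨q, rfl⟩ := SeparationQuotient.surjective_mk y
  rw [σ_mk, σ_mk, dist_mk, dist_mk, Pre.dist_σ]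

/-- The action of `H` on the tree as a homomorphism. -/
noncomputable def hom : H →* (X ≃ᵢ X) :=
  H.lift (fun i => IsometryEquiv.mk ⟨σ i, σ i, σ_σ i, σ_σ i⟩
    (Isometry.of_dist_eq (dist_σ i))) (by
    intro i; ext x; exact σ_σ i x)

noncomputable instance : MulAction H X where
  smul h x := hom h x
  one_smul x := by
    change hom 1 x = x
    rw [map_one]; rfl
  mul_smul g h x := by
    change hom (g * h) x = hom g (hom h x)
    rw [map_mul]; rfl

theorem s_smul (i : Fin 4) (x : X) : H.s i • x = σ i x := by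
  change hom (H.s i) x = _
  simp [hom]

theorem dist_smul (h : H) (x y : X) : dist (h • x) (h • y) = dist x y :=
  (hom h).dist_eq x y

end X

end Pool.Agent.Helper68.CT
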