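import Pool.Agent.Helper68.CT.Bdry

/-!
# The compactum `Z`, the convergence action of `H` on it, and its non-conical points
-/

open Filter Topology Set

namespace Pool.Agent.Helper68.CT

theorem Ray.continuous_σ (i : Fin 4) : Continuous (Ray.σ i) := by
  rw [continuous_iff_continuousAt]
  intro ξ
  rw [ContinuousAt]
  intro U hU
  obtain ⟨n, hn⟩ := Ray.exists_agree hU
  change Ray.σ i ⁻¹' U ∈ 𝓝 ξ
  filter_upwards [Ray.agree_mem_nhds ξ (n + 1)] with η hη
  apply hn
  intro k hk
  have h0 : η 0 = ξ 0 := hη 0 (by omega)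
  by_cases hi : ξ 0 = i
  · rw [Ray.σ_of_eq hi, Ray.σ_of_eq (h0.trans hi)]
    exact hη (k + 1) (by omega)
  · rw [Ray.σ_of_ne hi, Ray.σ_of_ne (by rw [h0]; exact hi)]
    cases k with
    | zero => rfl
    | succ k => exact hη k (by omega)

theorem Ray.continuous_smul (h : H) : Continuous (fun ξ : Ray => h • ξ) := by
  obtain ⟨l, -, rfl⟩ := H.exists_red h
  induction l with
  | nil =>
    simp only [H.prod_nil, one_smul]
    exact continuous_id
  | cons i l ih =>
    have : (fun ξ : Ray => H.prod (i :: l) • ξ) = fun ξ => Ray.σ i (H.prod l • ξ) := by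
      funext ξ
      rw [H.prod_cons, mul_smul, H.s_smul]
    rw [this]
    exact (Ray.continuous_σ i).comp ih

/-- The coding of a ray: on which side of the edges of the tree of cosets it lies. -/
def F (ξ : Ray) : H → Bool := fun g => decide ((g⁻¹ • ξ : Ray) 0 = 3)

theorem continuous_F : Continuous F := by
  apply continuous_pi
  intro g
  have h1 : Continuous (fun ξ : Ray => (g⁻¹ • ξ : Ray) 0) :=
    ((continuous_apply 0).comp continuous_subtype_val).comp (Ray.continuous_smul g⁻¹)
  have h2 : Continuous (fun a : Fin 4 => decide (a = 3)) := continuous_of_discreteTopology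
  exact h2.comp h1

theorem F_smul (h : H) (ξ : Ray) (g : H) : F (h • ξ) g = F ξ (h⁻¹ * g) := by
  unfold F
  rw [mul_inv_rev, inv_inv, mul_smul]

/-- The compactum. -/
def Z : Type := {z : H → Bool // z ∈ range F}

namespace Z

instance : TopologicalSpace Z := inferInstanceAs (TopologicalSpace {z : H → Bool // z ∈ range F})

instance : CompactSpace Z := isCompact_iff_compactSpace.mp (isCompact_range continuous_F)

instance : TopologicalSpace.MetrizableSpace Z := by
  have h1 : T3Space Z := inferInstanceAs (T3Space {z : H → Bool // z ∈ range F})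
  have h2 : SecondCountableTopology Z :=
    inferInstanceAs (SecondCountableTopology {z : H → Bool // z ∈ range F})
  exact TopologicalSpace.metrizableSpace_of_t3_secondCountable Z

/-- The point of `Z` given by a ray. -/
def mk (ξ : Ray) : Z := ⟨F ξ, ξ, rfl⟩

theorem mk_surjective : Function.Surjective mk := by
  rintro ⟨z, ξ, rfl⟩; exact ⟨ξ, rfl⟩

theorem continuous_mk : Continuous mk := continuous_F.subtype_mk _

instance : MulAction H Z where
  smul h z := ⟨fun g => z.1 (h⁻¹ * g), by
    obtain ⟨ξ, hξ⟩ := z.2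
    refine ⟨h • ξ, ?_⟩
    funext g
    rw [F_smul, hξ]⟩
  one_smul z := by
    apply Subtype.ext
    funext g
    change z.1 (1⁻¹ * g) = z.1 g
    simp
  mul_smul h h' z := by
    apply Subtype.ext
    funext g
    change z.1 ((h * h')⁻¹ * g) = z.1 (h'⁻¹ * (h⁻¹ * g))
    simp [mul_assoc]

theorem smul_apply (h : H) (z : Z) (g : H) : (h • z).1 g = z.1 (h⁻¹ * g) := rfl

theorem smul_mk (h : H) (ξ : Ray) : h • mk ξ = mk (h • ξ) := by
  apply Subtype.ext
  funext g
  rw [smul_apply]
  exact (F_smul h ξ g).symm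

theorem continuous_smul (h : H) : Continuous (fun z : Z => h • z) := by
  refine Continuous.subtype_mk ?_ _
  apply continuous_pi
  intro g
  exact (continuous_apply _).comp continuous_subtype_val

end Z

/-- The basic convergence statement. -/
theorem convergesOff_of {g : ℕ → H} {l : ℕ → List (Fin 4)} (hl : ∀ n, H.Red (l n))
    (hg : ∀ n, H.prod (l n) = g n) {ξp ξm : Ray}
    (h1 : ∀ N, ∀ᶠ n in atTop, N ≤ (l n).length)
    (h2 : ∀ r, ∀ᶠ n in atTop, ∀ k < r, (l n).getD k 0 = ξp k)
    (h3 : ∀ r, ∀ᶠ n in atTop, ∀ k < r, (l n).getD ((l n).length - 1 - k) 0 = ξm k) :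
    ConvergesOff g (Z.mk ξm) (Z.mk ξp) := by
  intro K hK hb U hU
  have hKc : IsClosed (Z.mk ⁻¹' K) := hK.isClosed.preimage Z.continuous_mk
  have hKn : (Z.mk ⁻¹' K)ᶜ ∈ 𝓝 ξm := hKc.isOpen_compl.mem_nhds hb
  obtain ⟨j, hj⟩ := Ray.exists_agree hKn
  have hUn : Z.mk ⁻¹' U ∈ 𝓝 ξp := Z.continuous_mk.continuousAt.preimage_mem_nhds hU
  obtain ⟨r, hr⟩ := Ray.exists_agree hUn
  filter_upwards [h1 (j + r), h2 r, h3 j] with n hn1 hn2 hn3 z hz
  obtain ⟨ξ, rfl⟩ := Z.mk_surjective z
  obtain ⟨k, hk, c1, c2, c3⟩ := H.cancel (l n) (hl n) ξ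
  have hkj : k < j ∨ k ≤ j := by
    by_contra hcon
    push Not at hcon
    have : ξ ∈ (Z.mk ⁻¹' K)ᶜ := by
      apply hj
      intro t ht
      rw [← c1 t (by omega) 0, hn3 t ht]
    exact this hz
  rw [← hg n, Z.smul_mk]
  apply hr
  intro t ht
  rw [c2 t (by omega) 0, hn2 t ht]

theorem red_reverse {l : List (Fin 4)} (hl : H.Red l) : H.Red l.reverse := by
  unfold H.Red at *
  rw [List.isChain_reverse]
  refine hl.imp ?_
  intro a b hab
  exact hab.symm

theorem exists_prefix (l : List (Fin 4)) (hl : H.Red l) :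
    ∃ ξ : Ray, ∀ k < l.length, l.getD k 0 = ξ k := by
  obtain ⟨ξ, hξ⟩ := X.exists_ray_good l
  obtain ⟨k, hk, c1, c2, c3⟩ := H.cancel l hl ξ
  refine ⟨H.prod l • ξ, ?_⟩
  have hk0 : k = 0 := by
    by_contra hcon
    have hne : l ≠ [] := by
      rintro rfl
      simp at hk; omega
    have := c1 0 (by omega) 0
    apply hξ hne
    rw [← this]
    have hlen : 0 < l.length := List.length_pos_of_ne_nil hne
    rw [Nat.sub_zero, List.getLast_eq_getElem, List.getD_eq_getElem _ _ (by omega)]
  subst hk0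
  intro r hr
  exact (c2 r (by omega) 0).symm

instance : SecondCountableTopology Ray :=
  TopologicalSpace.Subtype.secondCountableTopology {ξ : ℕ → Fin 4 | ∀ n, ξ (n + 1) ≠ ξ n}

theorem exists_subseq (g : ℕ → H) (l : ℕ → List (Fin 4)) (hl : ∀ n, H.Red (l n))
    (hg : ∀ n, H.prod (l n) = g n) (hinj : Function.Injective g) :
    ∃ φ : ℕ → ℕ, StrictMono φ ∧ ∃ ξp ξm : Ray,
      (∀ r, ∀ᶠ n in atTop, ∀ k < r, (l (φ n)).getD k 0 = ξp k) ∧
      ConvergesOff (g ∘ φ) (Z.mk ξm) (Z.mk ξp) := by
  have hlen : ∀ N, ∀ᶠ n in atTop, N ≤ (l n).length := by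
    intro N
    have hfin : {n | (l n).length ≤ N}.Finite := by
      have hf : {l : List (Fin 4) | l.length ≤ N}.Finite := List.finite_length_le _ _
      refine Set.Finite.of_injOn (f := l) (t := {l : List (Fin 4) | l.length ≤ N}) ?_ ?_ hf
      · intro n hn; exact hn
      · intro a _ b _ hab
        apply hinj
        rw [← hg a, ← hg b, hab]
    have : ∀ᶠ n in cofinite, n ∉ {n | (l n).length ≤ N} := hfin.compl_mem_cofinite
    rw [Nat.cofinite_eq_atTop] at this
    filter_upwards [this] with n hn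
    change ¬ (l n).length ≤ N at hn
    omega
  choose P hP using fun n => exists_prefix (l n) (hl n)
  choose M hM using fun n => exists_prefix (l n).reverse (red_reverse (hl n))
  obtain ⟨⟨ξp, ξm⟩, φ, hφ, hlim⟩ := SeqCompactSpace.tendsto_subseq (fun n => (P n, M n))
  have hlimP : Tendsto (fun n => P (φ n)) atTop (𝓝 ξp) :=
    (continuous_fst.tendsto _).comp hlim
  have hlimM : Tendsto (fun n => M (φ n)) atTop (𝓝 ξm) :=
    (continuous_snd.tendsto _).comp hlim
  have hφt := hφ.tendsto_atTop
  have hp : ∀ r, ∀ᶠ n in atTop, ∀ k < r, (l (φ n)).getD k 0 = ξp k := by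
    intro r
    filter_upwards [hlimP.eventually (Ray.agree_mem_nhds ξp r), hφt.eventually (hlen r)]
      with n h1 h2 k hk
    rw [hP (φ n) k (by omega)]
    exact h1 k hk
  refine ⟨φ, hφ, ξp, ξm, hp, ?_⟩
  refine convergesOff_of (l := fun n => l (φ n)) (fun n => hl _) (fun n => hg _)
    (fun N => hφt.eventually (hlen N)) hp ?_
  intro r
  filter_upwards [hlimM.eventually (Ray.agree_mem_nhds ξm r), hφt.eventually (hlen r)]
    with n h1 h2 k hk
  have := hM (φ n) k (by rw [List.length_reverse]; omega)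
  have h1' : (M (φ n)) k = ξm k := h1 k hk
  rw [← h1', ← this, List.getD_eq_getElem _ _ (by omega), List.getD_eq_getElem _ _ (by
    rw [List.length_reverse]; omega), List.getElem_reverse]

theorem convergenceAction : ConvergenceAction H Z where
  continuous_smul := Z.continuous_smul
  convergence := by
    intro g hinj
    choose l hl hg using fun n => H.exists_red (g n)
    obtain ⟨φ, hφ, ξp, ξm, -, hc⟩ := exists_subseq g l hl hg hinj
    exact ⟨φ, hφ, _, _, hc⟩

/-- The prefix of a ray. -/
def pre (ξ : Ray) (n : ℕ) : List (Fin 4) := (List.range n).map ξ.1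

theorem pre_length (ξ : Ray) (n : ℕ) : (pre ξ n).length = n := by simp [pre]

theorem pre_red (ξ : Ray) (n : ℕ) : H.Red (pre ξ n) := by
  unfold H.Red pre
  rw [List.isChain_map]
  induction n with
  | zero => simp
  | succ n ih =>
    rw [List.range_succ, List.isChain_append]
    refine ⟨ih, by simp, ?_⟩
    intro x hx y hy
    simp at hy
    subst hy
    cases n with
    | zero => simp at hx
    | succ n =>
      rw [List.range_succ] at hx
      simp at hx
      subst hx
      exact (ξ.ne _).symm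

theorem mem_limitSet (ξ : Ray) : Z.mk ξ ∈ limitSet H Z := by
  have hinj : Function.Injective (fun n => H.prod (pre ξ n)) := by
    intro a b hab
    have h1 := X.dist_root_prod (pre ξ a) (pre_red ξ a)
    have h2 := X.dist_root_prod (pre ξ b) (pre_red ξ b)
    simp only [] at hab
    rw [hab, h2, pre_length, pre_length] at h1
    exact_mod_cast h1.symm
  obtain ⟨φ, hφ, ξp, ξm, hp, hc⟩ := exists_subseq (fun n => H.prod (pre ξ n)) (pre ξ)
    (pre_red ξ) (fun _ => rfl) hinj
  have : ξp = ξ := by
    ext k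
    obtain ⟨n, hn1, hn2⟩ := ((hp (k + 1)).and
      (hφ.tendsto_atTop.eventually (eventually_gt_atTop k))).exists
    have h := hn1 k (by omega)
    rw [← h, List.getD_eq_getElem _ _ (by rw [pre_length]; exact hn2)]
    simp [pre]
  subst this
  exact ⟨_, hinj.comp hφ.injective, _, hc⟩

/-- The ray `a b a b ...`. -/
def alt (a b : Fin 4) (h : a ≠ b) : Ray := ⟨fun n => if n % 2 = 0 then a else b, fun n => by
  rcases Nat.mod_two_eq_zero_or_one n with h' | h'
  · have : (n + 1) % 2 = 1 := by omega
    simp [h', this, h.symm]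
  · have : (n + 1) % 2 = 0 := by omega
    simp [h', this, h]⟩

theorem alt_zero (a b : Fin 4) (h : a ≠ b) : alt a b h 0 = a := rfl
theorem alt_one (a b : Fin 4) (h : a ≠ b) : alt a b h 1 = b := rfl

theorem F_alt (a b : Fin 4) (ha : a ≠ 3) (hb : b ≠ 3) :
    F (alt a 3 ha) (H.s b) = decide (a = b) := by
  unfold F
  have hinv : (H.s b)⁻¹ = H.s b := by
    have := H.s_mul_s b
    exact inv_eq_of_mul_eq_one_left this
  rw [hinv, H.s_smul]
  by_cases h : a = b
  · subst h
    rw [Ray.σ_of_eq (alt_zero _ _ _)]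
    simp [alt_one]
  · rw [Ray.σ_of_ne (by rw [alt_zero]; exact h)]
    simp [h, hb]

theorem three_le_limitSet : 3 ≤ (limitSet H Z).encard := by
  have hsub : ({Z.mk (alt 0 3 (by decide)), Z.mk (alt 1 3 (by decide)),
      Z.mk (alt 2 3 (by decide))} : Set Z) ⊆ limitSet H Z := by
    intro z hz
    simp only [mem_insert_iff, mem_singleton_iff] at hz
    rcases hz with rfl | rfl | rfl <;> exact mem_limitSet _
  have hne : ∀ a b : Fin 4, ∀ (ha : a ≠ 3) (hb : b ≠ 3), a ≠ b →
      Z.mk (alt a 3 ha) ≠ Z.mk (alt b 3 hb) := by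
    intro a b ha hb hab e
    have := congrFun (congrArg Subtype.val e) (H.s a)
    change F _ _ = F _ _ at this
    rw [F_alt a a ha ha, F_alt b a hb ha] at this
    simp [hab.symm] at this
  refine le_trans ?_ (Set.encard_le_encard hsub)
  rw [Set.encard_insert_of_notMem, Set.encard_pair]
  · norm_num
  · exact hne 1 2 _ _ (by decide)
  · simp only [mem_insert_iff, mem_singleton_iff, not_or]
    exact ⟨hne 0 1 _ _ (by decide), hne 0 2 _ _ (by decide)⟩

/-- The key fact: no coordinate separates `z₀` from both test points. -/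
theorem key (ξ : Ray) (hξ : ∀ n, ξ n ≠ 3) (g : H) :
    F ξ g = F (alt 3 0 (by decide)) g ∨ F ξ g = F (alt 0 3 (by decide)) g := by
  obtain ⟨l, hl, hlg⟩ := H.exists_red g⁻¹
  unfold F
  rw [← hlg]
  cases l with
  | nil =>
    right
    simp only [H.prod_nil, one_smul, alt_zero]
    simp [hξ 0]
  | cons a l =>
    -- the value for `ξ` is `a = 3`
    have h1 : decide ((H.prod (a :: l) • ξ : Ray) 0 = 3) = decide (a = 3) := by
      by_cases hfull : ∀ t < l.length + 1, (a :: l).getD (l.length - t) 0 = ξ t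
      · have ha : a = ξ l.length := by
          have := hfull l.length (by omega)
          simpa using this
        obtain ⟨k, hk, c1, c2, c3⟩ := H.cancel (a :: l) hl ξ
        have hne : (H.prod (a :: l) • ξ : Ray) 0 ≠ 3 := by
          by_cases hk' : k = (a :: l).length
          · have := c3 0
            rw [hk'] at this
            simp only [Nat.sub_self, add_zero] at this
            rw [this]; exact hξ _
          · have := c2 0 (by omega) 0
            simp only [List.getD_cons_zero] at this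
            rw [this, ha]; exact hξ _
        have ha3 : a ≠ 3 := by rw [ha]; exact hξ _
        rw [decide_eq_decide]
        exact ⟨fun h => absurd h hne, fun h => absurd h ha3⟩
      · rw [H.first_letter hl ξ hfull]
    rw [h1]
    by_cases hlast : (a :: l).getD l.length 0 = 3
    · right
      rw [H.first_letter hl]
      intro hcon
      have := hcon 0 (by omega)
      rw [Nat.sub_zero, hlast, alt_zero] at this
      exact absurd this (by decide)
    · left
      rw [H.first_letter hl]
      intro hcon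
      have := hcon 0 (by omega)
      rw [Nat.sub_zero, alt_zero] at this
      exact hlast this

theorem ne_test1 (ξ : Ray) (hξ : ∀ n, ξ n ≠ 3) : Z.mk (alt 3 0 (by decide)) ≠ Z.mk ξ := by
  intro e
  have : F (alt 3 0 (by decide)) 1 = F ξ 1 := congrFun (congrArg Subtype.val e) 1
  unfold F at this
  simp [alt_zero, hξ 0] at this

theorem ne_test2 (ξ : Ray) (hξ : ∀ n, ξ n ≠ 3) : Z.mk (alt 0 3 (by decide)) ≠ Z.mk ξ := by
  intro e
  have : F (alt 0 3 (by decide)) (H.s 0) = F ξ (H.s 0) :=
    congrFun (congrArg Subtype.val e) (H.s 0)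
  rw [F_alt 0 0 _ (by decide)] at this
  unfold F at this
  have hinv : (H.s 0)⁻¹ = H.s 0 := inv_eq_of_mul_eq_one_left (H.s_mul_s 0)
  rw [hinv, H.s_smul] at this
  by_cases h : ξ 0 = 0
  · rw [Ray.σ_of_eq h] at this
    simp [hξ 1] at this
  · rw [Ray.σ_of_ne h] at this
    simp at this

theorem mem_nonConical (ξ : Ray) (hξ : ∀ n, ξ n ≠ 3) : Z.mk ξ ∈ nonConical H Z := by
  refine ⟨mem_limitSet ξ, ?_⟩
  rintro ⟨h, b, c, hbc, hb, hc⟩
  have hne : ∃ g, b.1 g ≠ c.1 g := by
    by_contra hcon
    push Not at hcon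
    exact hbc (Subtype.ext (funext hcon))
  obtain ⟨g, hg⟩ := hne
  have ev : ∀ (y z : Z), Tendsto (fun n => h n • y) atTop (𝓝 z) →
      ∀ᶠ n in atTop, (h n • y).1 g = z.1 g := by
    intro y z hy
    have hcont : Continuous (fun z : Z => z.1 g) :=
      (continuous_apply g).comp continuous_subtype_val
    have h1 := (hcont.tendsto z).comp hy
    have h2 : ({z.1 g} : Set Bool) ∈ 𝓝 (z.1 g) := by simp
    exact h1 h2
  obtain ⟨n, h0, h1, h2⟩ := ((ev _ _ hb).and ((ev _ _ (hc _ (ne_test1 ξ hξ))).and
    (ev _ _ (hc _ (ne_test2 ξ hξ))))).exists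
  rw [Z.smul_apply] at h0 h1 h2
  change F _ _ = _ at h0
  change F _ _ = _ at h1
  change F _ _ = _ at h2
  rcases key ξ hξ ((h n)⁻¹ * g) with e | e
  · exact hg (by rw [← h0, e, h1])
  · exact hg (by rw [← h0, e, h2])

end Pool.Agent.Helper68.CT
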